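/-
A family of `g`-sets that violates the bound `#{γ ⊇ Q} ρ ^ |Q| ≤ ρ ^ g` contains a family of small
codegrees (`b` maximal).
-/
import Mathlib

set_option autoImplicit false
set_option linter.unusedSectionVars false

open Finset

namespace Pool.Agent.H49.RO

variable {ν : Type} [Fintype ν] [DecidableEq ν]

open Classical in
theorem max_family (M : Finset (Finset ν)) (g : ℕ) (hM : ∀ γ ∈ M, γ.card = g) (ρ : ℝ)
    (hρ : 0 < ρ) (Q : Finset ν)
    (hcon : ρ ^ g < ((M.filter (fun γ => Q ⊆ γ)).card : ℝ) * ρ ^ Q.card) :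
    ∃ b : Finset ν, Q ⊆ b ∧ b.card < g ∧ (M.filter (fun γ => b ⊆ γ)).Nonempty ∧
      ∀ δ : Finset ν,
        (((M.filter (fun γ => b ⊆ γ)).filter (fun γ => δ ⊆ γ \ b)).card : ℝ) * ρ ^ δ.card ≤
          (M.filter (fun γ => b ⊆ γ)).card := by
  set f : Finset ν → ℝ := fun b =>
    ((M.filter (fun γ => b ⊆ γ)).card : ℝ) * ρ ^ b.card with hf
  obtain ⟨b, hb1, hb2⟩ := Finset.exists_max_image
    ((univ : Finset (Finset ν)).filter (fun b => Q ⊆ b)) f
    ⟨Q, Finset.mem_filter.2 ⟨Finset.mem_univ _, Finset.Subset.refl _⟩⟩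
  have hQb : Q ⊆ b := (Finset.mem_filter.1 hb1).2
  have hfQ : ρ ^ g < f b := by
    refine lt_of_lt_of_le hcon ?_
    exact hb2 Q (Finset.mem_filter.2 ⟨Finset.mem_univ _, Finset.Subset.refl _⟩)
  set O : Finset (Finset ν) := M.filter (fun γ => b ⊆ γ) with hOdef
  have hfb : f b = (O.card : ℝ) * ρ ^ b.card := rfl
  have hOne : O.Nonempty := by
    rw [Finset.nonempty_iff_ne_empty]
    intro h0
    rw [hfb, h0] at hfQ
    have : (0 : ℝ) < ρ ^ g := pow_pos hρ _
    simp at hfQ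
    linarith
  have hOmem : ∀ γ ∈ O, γ ∈ M ∧ b ⊆ γ := fun γ hγ => Finset.mem_filter.1 hγ
  obtain ⟨γ0, hγ0⟩ := hOne
  obtain ⟨hγ0m, hbγ0⟩ := hOmem γ0 hγ0
  have hγ0c := hM γ0 hγ0m
  have hbg : b.card < g := by
    rcases lt_or_ge b.card g with h1 | h1
    · exact h1
    · exfalso
      have h2 : ∀ γ ∈ O, γ = b := by
        intro γ hγ
        obtain ⟨h3, h4⟩ := hOmem γ hγ
        have h5 := hM γ h3
        exact (Finset.eq_of_subset_of_card_le h4 (by omega)).symm
      have h3 : O.card ≤ 1 := by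
        rw [Finset.card_le_one]
        intro x hx z hz
        rw [h2 x hx, h2 z hz]
      have h4 : b.card ≤ g := by
        rw [← hγ0c]
        exact Finset.card_le_card hbγ0
      have h5 : b.card = g := le_antisymm h4 h1
      have h6 : f b ≤ ρ ^ g := by
        rw [hfb, h5]
        have h7 : (O.card : ℝ) ≤ 1 := by exact_mod_cast h3
        have h8 : 0 < ρ ^ g := pow_pos hρ _
        nlinarith
      linarith
  refine ⟨b, hQb, hbg, ⟨γ0, hγ0⟩, ?_⟩
  intro δ
  by_cases hδ : Disjoint δ b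
  · have h1 : O.filter (fun o => δ ⊆ o \ b) = M.filter (fun γ => b ∪ δ ⊆ γ) := by
      ext γ
      rw [hOdef]
      simp only [Finset.mem_filter]
      constructor
      · rintro ⟨⟨h2, h3⟩, h4⟩
        exact ⟨h2, Finset.union_subset h3 (h4.trans Finset.sdiff_subset)⟩
      · rintro ⟨h2, h3⟩
        refine ⟨⟨h2, Finset.subset_union_left.trans h3⟩, ?_⟩
        rw [Finset.subset_sdiff]
        exact ⟨Finset.subset_union_right.trans h3, hδ⟩
    have h2 := hb2 (b ∪ δ) (Finset.mem_filter.2 ⟨Finset.mem_univ _,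
      hQb.trans Finset.subset_union_left⟩)
    have h3 : f (b ∪ δ) = ((O.filter (fun o => δ ⊆ o \ b)).card : ℝ) *
        (ρ ^ b.card * ρ ^ δ.card) := by
      rw [h1, ← pow_add, ← Finset.card_union_of_disjoint hδ.symm]
    rw [h3, hfb] at h2
    have h4 : 0 < ρ ^ b.card := pow_pos hρ _
    have h5 : ((O.filter (fun o => δ ⊆ o \ b)).card : ℝ) * ρ ^ δ.card * ρ ^ b.card ≤
        (O.card : ℝ) * ρ ^ b.card := by
      calc _ = ((O.filter (fun o => δ ⊆ o \ b)).card : ℝ) *
        (ρ ^ b.card * ρ ^ δ.card) := by ring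
        _ ≤ _ := h2
    exact le_of_mul_le_mul_right h5 h4
  · have h1 : O.filter (fun o => δ ⊆ o \ b) = ∅ := by
      rw [Finset.filter_eq_empty_iff]
      intro o ho h2
      rw [Finset.subset_sdiff] at h2
      exact hδ h2.2
    rw [h1]
    simp

end Pool.Agent.H49.RO
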