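import Pool.Agent.H49.RO.Pre
import Pool.Agent.H49.RO.Axm
import Pool.Agent.H49.RG.Spl

set_option autoImplicit false
set_option linter.unusedSectionVars false

open Finset

namespace Pool.Agent.H49.RO

open Pool.Agent.H49.RG (Cl Ad Eqn nbr cell pts mem_cell mem_nbr mem_pts cell_sub cell_mono
  cell_anti cell_cell cell_eq split)

variable {ν : Type} [Fintype ν] [DecidableEq ν] {R L : ℕ}

/-- Lines `0, ..., S - 1`: line `s` is the inequality `t s ≤ ∑ a, F s a (X a)`; if a line fails and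
some two blocks are adjacent then one of at most `r` earlier lines fails; one line always fails. -/
structure Ref (G : SimpleGraph ν) (V : Fin R → Fin L → Finset ν) (r S : ℕ)
    (F : ℕ → Fin R → (Fin L → ν) → ℝ) (t : ℕ → ℝ) : Prop where
  step : ∀ s < S, ∃ prem : Finset ℕ, prem.card ≤ r ∧ (∀ s' ∈ prem, s' < s) ∧
    ∃ (a b : Fin R) (i j : Fin L), (a, i) ≠ (b, j) ∧ ∀ X : Fin R → Fin L → ν,
      (∀ a j, X a j ∈ V a j) → ∑ a, F s a (X a) < t s → G.Adj (X a i) (X b j) →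
      ∃ s' ∈ prem, ∑ a, F s' a (X a) < t s'
  last : ∃ s < S, ∀ X : Fin R → Fin L → ν, (∀ a j, X a j ∈ V a j) → ∑ a, F s a (X a) < t s

theorem Dsc_consts {c : Num} (hc : c.OK R L) : 0 ≤ c.ZS ∧ 0 ≤ c.GS ∧ c.ZS * 2 ^ c.r ≤ c.Z1 ∧
    c.GS * 2 ^ c.r ≤ c.G1 ∧ 2 * 8 ^ L ≤ c.ZS * 2 ^ c.r ∧ 2 * 64 ^ L ≤ c.GS * 2 ^ c.r := by
  have h1 : 0 ≤ c.ZS := le_trans (by positivity) hc.F12
  have h2 : 0 ≤ c.GS := le_trans (by positivity) hc.F12'
  have hr : (1 : ℝ) ≤ 2 ^ c.r := one_le_pow₀ (by norm_num)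
  have hq : (1 : ℝ) ≤ 8 := by norm_num
  have hh1 : (1 : ℝ) ≤ 8 ^ c.f := one_le_pow₀ (by norm_num)
  refine ⟨h1, h2, ?_, ?_, ?_, ?_⟩
  · refine le_trans (le_mul_of_one_le_right (by positivity) ?_) hc.F10
    exact one_le_pow₀ hq
  · refine le_trans (le_mul_of_one_le_right (by positivity) ?_) hc.F10'
    exact one_le_pow₀ (one_le_mul_of_one_le_of_one_le hq hh1)
  · exact hc.F12.trans (le_mul_of_one_le_right h1 hr)
  · exact hc.F12'.trans (le_mul_of_one_le_right h2 hr)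

theorem Dsc_pre {G : SimpleGraph ν} {V : Fin R → Fin L → Finset ν} {c : Num}
    (h : ∀ a, (pl G V a).OK c) (hc : c.OK R L) (F : ℕ → Fin R → (Fin L → ν) → ℝ) (t : ℝ) (s : ℕ)
    (hS : St G V c (fun a => pts G (V a) \ (pl G V a).bad c (fun s => F s a) (s + 1)) (F s) t
      (c.ZS * 2 ^ c.r) (c.GS * 2 ^ c.r)) :
    St G V c (fun a => pts G (V a) \ (pl G V a).bad c (fun s => F s a) s) (F s) t c.ZS c.GS := by
  refine pre_step h hc _ _ (F s) t ?_ hS
  intro a x hx y hy hyc hxy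
  have hx' := mem_sdiff.1 hx
  exact good_of_not_bad (P := pl G V a) (c := c) (fun s => F s a) s hx'.1 hx'.2 y hy hyc hxy

theorem Dsc_desc {G : SimpleGraph ν} {V : Fin R → Fin L → Finset ν} {c : Num}
    (h : ∀ a, (pl G V a).OK c) (hc : c.OK R L) (S : ℕ)
    (F : ℕ → Fin R → (Fin L → ν) → ℝ) (t : ℕ → ℝ) (hT : Ref G V c.r S F t) (s : ℕ) : s < S →
    ¬ St G V c (fun a => pts G (V a) \ (pl G V a).bad c (fun s => F s a) s) (F s) (t s)
      c.ZS c.GS := by
  induction s using Nat.strong_induction_on with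
  | _ s ih =>
    rintro hs ⟨A, U, v, Φ, hAY, hU, hΦc, hoth, hSp, hfal⟩
    obtain ⟨hZS, hGS, hZ1, hG1, -, -⟩ := Dsc_consts hc
    obtain ⟨prem, hpc, hplt, a1, b1, i1, j1, hne, himp⟩ := hT.step s hs
    obtain ⟨A', hA'A, hA'c, hsplit⟩ := split F t prem A
    have hpow : ((2 : ℝ) ^ prem.card) ≤ 2 ^ c.r := pow_le_pow_right₀ (by norm_num) hpc
    have hSp' : ∀ a, (pl G V a).Sp c (A' a) (U a) (v a) (Φ a) (c.ZS * 2 ^ c.r)
        (c.GS * 2 ^ c.r) := by
      intro a
      refine (hSp a).part hc hZS hGS (hA'A a) ?_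
      have h1 : ((A a).card : ℝ) ≤ 2 ^ prem.card * (A' a).card := by exact_mod_cast hA'c a
      exact h1.trans (mul_le_mul_of_nonneg_right hpow (Nat.cast_nonneg _))
    rcases hsplit with ⟨s', hs', hall⟩ | hall
    · refine ih s' (hplt s' hs') ((hplt s' hs').trans hs) (Dsc_pre h hc F (t s') s' ?_)
      refine ⟨A', U, v, Φ, fun a => ?_, hU, hΦc, hoth, hSp', hall⟩
      exact ((hA'A a).trans (hAY a)).trans (sdiff_subset_sdiff (Subset.refl _)
        (bad_mono (P := pl G V a) (c := c) (fun s => F s a) (hplt s' hs')))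
    · obtain ⟨X, hX, hadj⟩ := exists_adj h hc A' U v Φ hoth
        (fun a => (hSp' a).mono hc hZ1 hG1) a1 b1 i1 j1 hne
      have h1 : ∑ a, F s a (X a) < t s := hfal X fun a => hA'A a (hX a)
      have h2 : ∀ a j, X a j ∈ V a j := fun a j =>
        (mem_pts.1 (mem_sdiff.1 (hAY a (hA'A a (hX a)))).1).1 j
      obtain ⟨s', hs', hlt⟩ := himp X h2 h1 hadj
      exact absurd (hall s' hs' X hX) (not_le.2 hlt)

theorem Dsc_top {P : Pl ν L} {c : Num} (h : P.OK c) (hc : c.OK R L) (S s : ℕ) (hs : s ≤ S)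
    (hS : 2 * 8 ^ L * ((S : ℝ) * c.κ0) ≤ 1) (F : ℕ → (Fin L → ν) → ℝ) (α : Fin L → ν) :
    P.Sp c (pts P.G P.V \ P.bad c F s) ∅ α ∅ (2 * 8 ^ L) (2 * 64 ^ L) := by
  have hT := Num.Tot_pos hc.p_pos hc.n_pos L
  have hW : c.W L 0 0 = 1 := by
    unfold Num.W
    simp
  have hcell : ∀ X : Finset (Fin L → ν), cell P.G X ∅ α ∅ = X := by
    intro X
    refine Subset.antisymm (cell_sub _ _ _ _ _) fun x hx => mem_cell.2 ⟨hx, ?_, ?_⟩
    · intro j hj
      exact absurd hj (notMem_empty j)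
    · intro j _ v hv
      exact absurd hv (notMem_empty v)
  have hden : ∀ X : Finset (Fin L → ν), P.den c X ∅ α ∅ = X.card := by
    intro X
    unfold Pl.den
    rw [hcell, card_empty, card_empty, hW, mul_one]
  have h1 : c.Tot L ≤ 8 ^ L * (pts P.G P.V).card := by
    have h2 := tot_le h hc ∅ α ∅ (empty_subset _) (by simp)
      ⟨fun j hj => absurd hj (notMem_empty j), fun i hi => absurd hi (notMem_empty i),
        fun j hj => absurd hj (notMem_empty j)⟩
    rwa [hden] at h2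
  have h2 : ((P.bad c F s).card : ℝ) ≤ (pts P.G P.V).card / 2 := by
    have h3 := bad_card h hc F s
    have h4 : (s : ℝ) ≤ S := by exact_mod_cast hs
    have hκ := hc.κ0_pos
    have h5 : (s : ℝ) * (c.κ0 * c.Tot L) ≤ S * (c.κ0 * (8 ^ L * (pts P.G P.V).card)) := by
      gcongr
    have h6 : (S : ℝ) * (c.κ0 * (8 ^ L * (pts P.G P.V).card)) =
        (2 * 8 ^ L * ((S : ℝ) * c.κ0)) * ((pts P.G P.V).card / 2) := by ring
    have h7 : (2 * 8 ^ L * ((S : ℝ) * c.κ0)) * ((pts P.G P.V).card / 2) ≤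
        1 * ((pts P.G P.V).card / 2) := mul_le_mul_of_nonneg_right hS (by positivity)
    linarith
  have h3 : ((pts P.G P.V).card : ℝ) ≤ 2 * (pts P.G P.V \ P.bad c F s).card := by
    have h4 : (pts P.G P.V).card ≤ (pts P.G P.V \ P.bad c F s).card + (P.bad c F s).card := by
      have h5 := card_le_card (show pts P.G P.V ⊆ (pts P.G P.V \ P.bad c F s) ∪ P.bad c F s by
        intro x hx
        by_cases hb : x ∈ P.bad c F s
        · exact mem_union_right _ hb
        · exact mem_union_left _ (mem_sdiff.2 ⟨hx, hb⟩))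
      exact h5.trans (card_union_le _ _)
    have h5 : ((pts P.G P.V).card : ℝ) ≤ (pts P.G P.V \ P.bad c F s).card +
        (P.bad c F s).card := by exact_mod_cast h4
    linarith
  have h4 : c.Tot L ≤ 2 * 8 ^ L * (pts P.G P.V \ P.bad c F s).card := by
    calc c.Tot L ≤ 8 ^ L * (pts P.G P.V).card := h1
      _ ≤ 8 ^ L * (2 * (pts P.G P.V \ P.bad c F s).card) :=
        mul_le_mul_of_nonneg_left h3 (by positivity)
      _ = _ := by ring
  refine ⟨?_, empty_subset _, by simp, ?_, ?_⟩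
  · intro x hx
    rw [hcell]
    exact (mem_sdiff.1 hx).1
  · rw [hden]
    exact h4
  · intro U' α' _ _
    rw [hden]
    have h5 := P.den_mono hc.p_pos hc.n_pos (X := pts P.G P.V \ P.bad c F s)
      (Y := pts P.G P.V) sdiff_subset U' α' ∅
    have h6 := den_all_le h hc U' α' ∅ (empty_subset _) (by simp)
    have hh : (1 : ℝ) ≤ c.h ^ (U'.card - (∅ : Finset (Fin L)).card) := one_le_pow₀ hc.h_ge
    have h64 : (64 : ℝ) ^ L = 8 ^ L * 8 ^ L := by
      rw [← mul_pow]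
      norm_num
    calc P.den c (pts P.G P.V \ P.bad c F s) U' α' ∅ ≤ 8 ^ L * c.Tot L := h5.trans h6
      _ ≤ 8 ^ L * (2 * 8 ^ L * (pts P.G P.V \ P.bad c F s).card) :=
        mul_le_mul_of_nonneg_left h4 (by positivity)
      _ = 2 * 64 ^ L * (pts P.G P.V \ P.bad c F s).card := by
        rw [h64]
        ring
      _ ≤ _ := by
        refine mul_le_mul_of_nonneg_right ?_ (Nat.cast_nonneg _)
        have h7 : (0 : ℝ) ≤ 2 * 64 ^ L := by positivity
        exact le_mul_of_one_le_right h7 hh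

theorem noref {G : SimpleGraph ν} {V : Fin R → Fin L → Finset ν} {c : Num}
    (h : ∀ a, (pl G V a).OK c) (hc : c.OK R L) (S : ℕ)
    (hS : 2 * 8 ^ L * ((S : ℝ) * c.κ0) ≤ 1) (F : ℕ → Fin R → (Fin L → ν) → ℝ) (t : ℕ → ℝ)
    (hT : Ref G V c.r S F t) : False := by
  obtain ⟨s0, hs0, hall⟩ := hT.last
  obtain ⟨-, -, -, -, hZ, hG⟩ := Dsc_consts hc
  have hne : ∀ (a : Fin R) (j : Fin L), (V a j).Nonempty := by
    intro a j
    have h1 := (h a).card j
    have h2 := hc.n_pos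
    refine card_pos.1 ?_
    show 0 < ((pl G V a).V j).card
    omega
  choose x0 hx0 using hne
  refine Dsc_desc h hc S F t hT s0 hs0 (Dsc_pre h hc F (t s0) s0 ?_)
  refine ⟨fun a => pts G (V a) \ (pl G V a).bad c (fun s => F s a) (s0 + 1), fun _ => ∅, x0,
    fun _ => ∅, fun a => Subset.refl _, fun a => by simp, fun a => by simp, ?_, ?_, ?_⟩
  · intro a x hx
    obtain ⟨b, -, hb⟩ := mem_oth.1 hx
    obtain ⟨j, hj, -⟩ := mem_lets.1 hb
    exact absurd hj (notMem_empty j)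
  · intro a
    exact (Dsc_top (h a) hc S (s0 + 1) hs0 hS (fun s => F s a) (x0 a)).mono hc hZ hG
  · intro X hX
    exact hall X fun a j => (mem_pts.1 (mem_sdiff.1 (hX a)).1).1 j

end Pool.Agent.H49.RO
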