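/-
The numbers for the optimal version (helper11, after helper49's Nm of RL). Everything is a power of
`a = n^(1/(409600 R))` times a power of 2; `2 ^ (2 ^ 13 T L) ≤ a`, `2 ^ 67 R ^ 2 ≤ 2 ^ T`.
-/
import Pool.Agent.H49.RO.Defs

set_option autoImplicit false

namespace Pool.Agent.H49.RO

/-- The numbers, in terms of a number `a`. -/
noncomputable def numo (a : ℝ) (R L z n N r : ℕ) (p : ℝ) : Num where
  n := n
  w := R * (1600 * z)
  f := 1600 * z
  s := 8 * L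
  r := r
  No := N
  K1 := L / 8
  KX := 120000 * R * z
  kl := 2 ^ 23 * R
  μ := 2 ^ 16 * R
  D := 2 ^ 67 * R ^ 2
  t0 := L / (2 ^ 88 * R ^ 3) + 1
  X := 2 ^ 88 * R ^ 3
  te := Nat.sqrt n + 1
  cm := 1600 * z + 3
  p := p
  β := a ^ 32
  l := a ^ 16
  B1 := a ^ 4
  l1 := a
  Bp := a ^ 8
  h := a ^ (512 * R)
  κ0 := 8 ^ L / ((n : ℝ) ^ z * a ^ (512 * R))
  Z1 := (n : ℝ) ^ (2 * z) * (a ^ (512 * R)) ^ 2
  G1 := 2 ^ (10 * L)
  Zg := (n : ℝ) ^ (2 * z) * a ^ (512 * R)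
  Gg := 2 ^ L
  ZS := (n : ℝ) ^ (2 * z) * a ^ (512 * R) * 8 ^ R
  GS := 2 ^ (8 * L)
  Cb := a ^ (256000 * R)

lemma Nm_gen {a : ℝ} {E : ℕ} (ha : 2 ^ E ≤ a) {x y y' d : ℕ} (hx : x ≤ E * d) (hy : y + d ≤ y') :
    (2 : ℝ) ^ x * a ^ y ≤ a ^ y' := by
  have h1 : (1 : ℝ) ≤ a := (one_le_pow₀ (by norm_num)).trans ha
  have h2 : (2 : ℝ) ^ x ≤ a ^ d := by
    refine (pow_le_pow_right₀ (by norm_num) hx).trans ?_
    rw [pow_mul]
    exact pow_le_pow_left₀ (by positivity) ha _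
  calc (2 : ℝ) ^ x * a ^ y ≤ a ^ d * a ^ y := mul_le_mul_of_nonneg_right h2 (by positivity)
    _ = a ^ (y + d) := by rw [← pow_add, add_comm]
    _ ≤ a ^ y' := pow_le_pow_right₀ h1 hy

lemma Nm_le {a : ℝ} {E : ℕ} (ha : 2 ^ E ≤ a) {x y y' : ℕ} (hx : x ≤ E) (hy : y + 1 ≤ y') :
    (2 : ℝ) ^ x * a ^ y ≤ a ^ y' := Nm_gen ha (d := 1) (by rwa [mul_one]) hy

lemma Nm_nat (a : ℕ) : (a : ℝ) ≤ 2 ^ a := by
  exact_mod_cast (Nat.lt_two_pow_self (n := a)).le

/-- Multiplying out `κ0`. -/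
lemma Nm_κ {A B C D : ℝ} (hD : 0 < D) (h : A * D ≤ C * B) : A ≤ C / D * B := by
  rw [div_mul_eq_mul_div, le_div_iff₀ hD]
  exact h

lemma Nm_exp {X : ℝ} {K : ℕ} (h : 2 * (K : ℝ) ≤ X) (hX : 0 < X) : (1 + 1 / X) ^ K ≤ 2 := by
  have h3 : 1 + 1 / X ≤ Real.exp (1 / X) := by
    have := Real.add_one_le_exp (1 / X)
    linarith
  have h4 : (1 + 1 / X) ^ K ≤ Real.exp (K * (1 / X)) := by
    rw [Real.exp_nat_mul]
    exact pow_le_pow_left₀ (by positivity) h3 K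
  refine h4.trans ?_
  have h5 : (K : ℝ) * (1 / X) ≤ 1 / 2 := by
    rw [mul_one_div, div_le_iff₀ hX]
    linarith
  have h6 : Real.exp (1 / 2) ≤ 2 := by
    have h7 : Real.exp (1 / 2) ^ 2 = Real.exp 1 := by
      rw [← Real.exp_nat_mul]
      norm_num
    have h8 := Real.exp_one_lt_d9
    have h9 := Real.exp_pos (1 / 2)
    nlinarith
  exact (Real.exp_le_exp.2 h5).trans h6

/-- `p ^ L * a ^ (4096 R) ≥ 1`. -/
lemma Nm_p (a : ℝ) (R L n : ℕ) (p : ℝ) (hp0 : 0 < p)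
    (hp : 1 ≤ (n : ℝ) * p ^ (100 * L)) (ha : 1 ≤ a) (han : a ^ (409600 * R) = n) :
    1 ≤ p ^ L * a ^ (4096 * R) := by
  have ha0 : 0 < a := by linarith
  by_contra hcon
  push Not at hcon
  have h1 : (p ^ L * a ^ (4096 * R)) ^ 100 < 1 :=
    pow_lt_one₀ (by positivity) hcon (by norm_num)
  have h2 : (n : ℝ) * p ^ (100 * L) = (p ^ L * a ^ (4096 * R)) ^ 100 := by
    rw [← han]
    ring
  linarith

lemma Nm_pow8 (L : ℕ) : (8 : ℝ) ^ L = 2 ^ (3 * L) := by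
  rw [pow_mul]
  norm_num

lemma Nm_pow16 (L : ℕ) : (16 : ℝ) ^ L = 2 ^ (4 * L) := by
  rw [pow_mul]
  norm_num

lemma Nm_pow64 (L : ℕ) : (64 : ℝ) ^ L = 2 ^ (6 * L) := by
  rw [pow_mul]
  norm_num

lemma Nm_sq (m : ℕ) (hm : 16 ≤ m) : 4 * (m + 1) ^ 2 ≤ 2 ^ m := by
  induction m, hm using Nat.le_induction with
  | base => norm_num
  | succ m hm ih =>
    calc 4 * (m + 1 + 1) ^ 2 ≤ 2 * (4 * (m + 1) ^ 2) := by nlinarith
      _ ≤ 2 * 2 ^ m := Nat.mul_le_mul_left _ ih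
      _ = 2 ^ (m + 1) := by ring

/-- Sizes: `L` is large. -/
lemma Nm_big (R L z : ℕ) (hR : 1 ≤ R) (hz : 1 ≤ z) (hL : 2 ^ 240 * R ^ 8 * z ≤ L) :
    2 ^ 240 * R ≤ L ∧ 2 ^ 240 * z ≤ L ∧ 2 ^ 240 * (R * z) ≤ L ∧ 2 ^ 240 * (R ^ 2 * z) ≤ L ∧
    2 ^ 240 * R ^ 3 ≤ L ∧ 2 ^ 240 * (R ^ 4 * z) ≤ L ∧ 2 ^ 152 * z * (2 ^ 88 * R ^ 3) ≤ L ∧
    2 ^ 120 * R ^ 4 ≤ Nat.sqrt L := by
  have hp : ∀ i, i ≤ 8 → 2 ^ 240 * (R ^ i * z) ≤ L := by
    intro i hi
    refine le_trans ?_ hL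
    rw [mul_assoc]
    exact Nat.mul_le_mul_left _ (Nat.mul_le_mul_right _ (Nat.pow_le_pow_right hR hi))
  have hq : ∀ i, i ≤ 8 → 2 ^ 240 * R ^ i ≤ L := by
    intro i hi
    refine le_trans ?_ (hp i hi)
    exact Nat.mul_le_mul_left _ (Nat.le_mul_of_pos_right _ hz)
  refine ⟨?_, ?_, ?_, hp 2 (by norm_num), hq 3 (by norm_num), hp 4 (by norm_num), ?_, ?_⟩
  · have := hq 1 (by norm_num)
    rwa [pow_one] at this
  · have := hp 0 (by norm_num)
    rwa [pow_zero, one_mul] at this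
  · have := hp 1 (by norm_num)
    rwa [pow_one] at this
  · refine le_trans (le_of_eq ?_) (hp 3 (by norm_num))
    ring
  · rw [Nat.le_sqrt]
    refine le_trans (le_of_eq ?_) (hq 8 (by norm_num))
    ring

theorem numo_ok (a : ℝ) (R L z n N r T : ℕ) (p : ℝ) (hR : 1 ≤ R) (hz : 1 ≤ z)
    (hL : 2 ^ 240 * R ^ 8 * z ≤ L) (hr : r ≤ L) (hp0 : 0 < p) (hp1 : p ≤ 1)
    (hp : 1 ≤ (n : ℝ) * p ^ (100 * L)) (hN : N ≤ n * 2 ^ (2 * L)) (hT : 64 ≤ T)
    (hRT : 2 ^ 67 * R ^ 2 ≤ 2 ^ T)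
    (ha : 2 ^ (2 ^ 13 * (T * L)) ≤ a) (han : a ^ (409600 * R) = n) :
    (numo a R L z n N r p).OK R L := by
  obtain ⟨s1, s2, s3, s4, s5, s6, s7, s8⟩ := Nm_big R L z hR hz hL
  obtain ⟨E, hE⟩ : ∃ E, E = 2 ^ 13 * (T * L) := ⟨_, rfl⟩
  rw [← hE] at ha
  have hTL : 64 * L ≤ T * L := Nat.mul_le_mul_right _ hT
  have hEL : 2 ^ 19 * L ≤ E := by omega
  have hER : 2 ^ 19 * (L * R) ≤ E * R := by
    rw [← mul_assoc]
    exact Nat.mul_le_mul_right _ hEL
  have ha1 : 1 ≤ a := (one_le_pow₀ (by norm_num)).trans ha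
  have ha0 : 0 < a := by linarith
  have hL1 : 1 ≤ L := by omega
  have hRz : 1 ≤ R * z := Nat.mul_pos hR hz
  have hn0 : (0 : ℝ) < n := by rw [← han]; positivity
  have hn0' : 0 < n := by exact_mod_cast hn0
  have hn1 : (1 : ℝ) ≤ n := by exact_mod_cast hn0'
  have hNr : (N : ℝ) ≤ n * 2 ^ (2 * L) := by exact_mod_cast hN
  have hpL := Nm_p a R L n p hp0 hp ha1 han
  have hpL0 : 0 < p ^ L := by positivity
  have hq : (1 / p) ^ L ≤ a ^ (4096 * R) := by
    rw [one_div, inv_pow, inv_le_iff_one_le_mul₀ hpL0, mul_comm]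
    exact hpL
  have h4 : a ^ (393216 * R) ≤ n * p ^ (4 * L) := by
    have h2 : (n : ℝ) * p ^ (4 * L) = a ^ (393216 * R) * (p ^ L * a ^ (4096 * R)) ^ 4 := by
      rw [← han]
      ring
    rw [h2]
    exact le_mul_of_one_le_right (by positivity) (one_le_pow₀ hpL)
  have h5 : a ^ (389120 * R) ≤ n * p ^ (5 * L) := by
    have h2 : (n : ℝ) * p ^ (5 * L) = a ^ (389120 * R) * (p ^ L * a ^ (4096 * R)) ^ 5 := by
      rw [← han]
      ring
    rw [h2]
    exact le_mul_of_one_le_right (by positivity) (one_le_pow₀ hpL)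
  have hD : 0 < (n : ℝ) ^ z * a ^ (512 * R) := by positivity
  have h8L : (1 : ℝ) ≤ 8 ^ L := one_le_pow₀ (by norm_num)
  have hah : a ≤ a ^ (512 * R) := le_self_pow₀ ha1 (by omega)
  have h1p : 1 ≤ 1 / p := by
    rw [le_div_iff₀ hp0, one_mul]
    exact hp1
  -- the number `t0`
  obtain ⟨X, hX⟩ : ∃ X, X = 2 ^ 88 * R ^ 3 := ⟨_, rfl⟩
  have hX0 : 0 < X := by rw [hX]; positivity
  have hXL : 2 ^ 152 * X ≤ L := by
    rw [hX]
    refine le_trans (le_of_eq ?_) s5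
    ring
  obtain ⟨t, ht⟩ : ∃ t, t = L / X := ⟨_, rfl⟩
  have ht1 : X * t ≤ L := by rw [ht]; exact Nat.mul_div_le L X
  have ht2 : L < X * (t + 1) := by rw [ht]; exact Nat.lt_mul_div_succ L hX0
  have ht3 : 2 ^ 152 * z ≤ t := by
    rw [ht, Nat.le_div_iff_mul_le hX0, hX]
    exact s7
  have ht4 : 16 * t ≤ L := by
    refine le_trans (Nat.mul_le_mul_right t ?_) ht1
    have : 1 ≤ R ^ 3 := Nat.one_le_pow _ _ hR
    omega
  have hK8 : 8 * (L / 8) ≤ L := Nat.mul_div_le L 8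
  have hRR : R ≤ R ^ 2 := Nat.le_self_pow (by norm_num) R
  have hR2z : R * z ≤ R ^ 2 * z := Nat.mul_le_mul_right _ hRR
  have hKw : 2 * ((L / 8 : ℕ) : ℝ) * ((R * (1600 * z) : ℕ) : ℝ) ≤ 2 ^ (2 * L) := by
    have e1 : (2 : ℝ) * ((L / 8 : ℕ) : ℝ) ≤ L := by
      have : 2 * (L / 8) ≤ L := by omega
      exact_mod_cast this
    have e2 : ((R * (1600 * z) : ℕ) : ℝ) ≤ L := by
      have : R * (1600 * z) ≤ L := by
        calc R * (1600 * z) = 1600 * (R * z) := by ring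
          _ ≤ 2 ^ 240 * (R * z) := Nat.mul_le_mul_right _ (by norm_num)
          _ ≤ L := s3
      exact_mod_cast this
    have e3 := Nm_nat L
    calc 2 * ((L / 8 : ℕ) : ℝ) * ((R * (1600 * z) : ℕ) : ℝ) ≤ L * L :=
          mul_le_mul e1 e2 (by positivity) (by positivity)
      _ ≤ 2 ^ L * 2 ^ L := mul_le_mul e3 e3 (by positivity) (by positivity)
      _ = 2 ^ (2 * L) := by ring
  have hw3 : 2 ^ 20 * (R * z) ≤ L := by omega
  -- `4 L ≤ 2 ^ m`, `m * m ≤ L`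
  obtain ⟨m, hm⟩ : ∃ m, m = Nat.sqrt L := ⟨_, rfl⟩
  rw [← hm] at s8
  have hm1 : m * m ≤ L := by rw [hm]; exact Nat.sqrt_le L
  have hR4 : 1 ≤ R ^ 4 := Nat.one_le_pow _ _ hR
  have hm2 : 4 * L ≤ 2 ^ m := by
    have h1 : L < (m + 1) * (m + 1) := by rw [hm]; exact Nat.lt_succ_sqrt L
    have h2 := Nm_sq m (by omega)
    nlinarith
  have hm3 : (4 * (L : ℝ)) ≤ 2 ^ m := by exact_mod_cast hm2
  have hLr : (1 : ℝ) ≤ L := by exact_mod_cast hL1
  refine
    { R_pos := hR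
      L_pos := hL1
      n_pos := hn0'
      f_pos := ?_
      f_lt := ?_
      p_pos := hp0
      p_le := hp1
      β_ge := ?_
      h_ge := one_le_pow₀ ha1
      κ0_pos := ?_
      Z1_ge := ?_
      G1_ge := ?_
      w_eq := rfl
      μ_pos := ?_
      t0_pos := ?_
      kl_pos := ?_
      KX_pos := ?_
      X_ge := ?_
      LX := ?_
      D2 := ?_
      DK := ?_
      wK := ?_
      klK := ?_
      K_le := hK8
      s_ge := ?_
      s_le := le_rfl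
      tB := ⟨?_, ?_, ?_, ?_⟩
      tB1 := ⟨ha1, ?_, ?_, ?_⟩
      pt0 := ?_
      No_le := ?_
      Q_le := ?_
      Cb_nn := ?_
      FCb := ?_
      FM := ?_
      FD := ?_
      FC1 := ?_
      FL := ?_
      FK := ?_
      FK2 := ?_
      FW := ?_
      FG3 := ?_
      FT := ?_
      Fcm := ?_
      FBp := ?_
      B1_ge := one_le_pow₀ ha1
      FTS := ?_
      kBp := ?_
      kβ := ?_
      FX := ?_
      FE := ?_
      FZ := ?_
      FZg := ?_
      FGg := ?_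
      FU := ?_
      FC := ?_
      F8 := ?_
      F9 := le_rfl
      F9' := ?_
      F10 := ?_
      F10' := ?_
      F11 := ?_
      F12 := ?_
      F12' := ?_ }
  · -- f_pos
    show 1 ≤ 1600 * z
    omega
  · -- f_lt
    show 1600 * z < L
    omega
  · -- β_ge
    show 16 ≤ a ^ 32
    have h := Nm_le ha (x := 4) (y := 0) (y' := 32) (by omega) (by norm_num)
    norm_num at h
    exact h
  · -- κ0_pos
    show 0 < (8 : ℝ) ^ L / _
    positivity
  · -- Z1_ge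
    show 1 ≤ (n : ℝ) ^ (2 * z) * (a ^ (512 * R)) ^ 2
    exact one_le_mul_of_one_le_of_one_le (one_le_pow₀ hn1) (one_le_pow₀ (one_le_pow₀ ha1))
  · -- G1_ge
    show (8 : ℝ) ≤ 2 ^ (10 * L)
    calc (8 : ℝ) = 2 ^ 3 := by norm_num
      _ ≤ 2 ^ (10 * L) := pow_le_pow_right₀ (by norm_num) (by omega)
  · -- μ_pos
    show 1 ≤ 2 ^ 16 * R
    omega
  · show 1 ≤ L / (2 ^ 88 * R ^ 3) + 1
    exact Nat.le_add_left 1 _
  · show 1 ≤ 2 ^ 23 * R
    omega
  · show 1 ≤ 120000 * R * z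
    rw [mul_assoc]
    omega
  · -- X_ge
    show 16 ≤ 2 ^ 88 * R ^ 3
    have : 1 ≤ R ^ 3 := Nat.one_le_pow _ _ hR
    omega
  · -- LX
    show L ≤ 2 ^ 88 * R ^ 3 * (L / (2 ^ 88 * R ^ 3) + 1)
    rw [← hX, ← ht]
    exact ht2.le
  · -- D2
    show 2000000 * (2 ^ 16 * R + 2 ^ 23 * R) * (2 ^ 88 * R ^ 3) ≤ (2 ^ 67 * R ^ 2) ^ 2
    calc 2000000 * (2 ^ 16 * R + 2 ^ 23 * R) * (2 ^ 88 * R ^ 3) =
          2000000 * (2 ^ 16 + 2 ^ 23) * 2 ^ 88 * R ^ 4 := by ring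
      _ ≤ 2 ^ 134 * R ^ 4 := Nat.mul_le_mul_right _ (by norm_num)
      _ = _ := by ring
  · -- DK
    show 2 ^ 67 * R ^ 2 * (2 ^ 16 * R) * (L / (2 ^ 88 * R ^ 3) + 1) +
      2 ^ 16 * R * (R * (1600 * z)) ≤ L / 8
    rw [← hX, ← ht, Nat.le_div_iff_mul_le (by norm_num)]
    have e1 : 32 * (2 ^ 67 * R ^ 2 * (2 ^ 16 * R) * (t + 1)) = X * t + X := by
      rw [hX]
      ring
    have e2 : 2 ^ 16 * R * (R * (1600 * z)) = 104857600 * (R ^ 2 * z) := by ring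
    rw [e2]
    omega
  · -- wK
    show 120000 * R * z + R * (1600 * z) ≤ L / 8
    rw [Nat.le_div_iff_mul_le (by norm_num)]
    have : 120000 * R * z + R * (1600 * z) = 121600 * (R * z) := by ring
    omega
  · -- klK
    show 2 ^ 23 * R * (R * (1600 * z)) ≤ L / 8
    rw [Nat.le_div_iff_mul_le (by norm_num)]
    have : 2 ^ 23 * R * (R * (1600 * z)) = 2 ^ 23 * 1600 * (R ^ 2 * z) := by ring
    omega
  · -- s_ge
    show 4 * L + 2 * (L / 8) ≤ 8 * L
    omega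
  · -- tB.l_ge
    exact one_le_pow₀ ha1
  · -- tB.mB
    show 2 * ((L / 8 : ℕ) : ℝ) * ((R * (1600 * z) : ℕ) : ℝ) * a ^ 16 ≤ (a ^ 32) ^ 2
    refine le_trans (mul_le_mul_of_nonneg_right hKw (by positivity)) ?_
    rw [← pow_mul]
    exact Nm_le ha (by omega) (by norm_num)
  · -- tB.pay
    show (a ^ (512 * R)) ^ 200 * (2 * ((L / 8 : ℕ) : ℝ) *
      ((R * (1600 * z) : ℕ) : ℝ) * a ^ 16) ^ (2 ^ 16 * R) ≤ ((a ^ 32) ^ 2) ^ (2 ^ 16 * R)
    have e : (2 * ((L / 8 : ℕ) : ℝ) * ((R * (1600 * z) : ℕ) : ℝ) * a ^ 16) ^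
        (2 ^ 16 * R) ≤ (2 ^ (2 * L) * a ^ 16) ^ (2 ^ 16 * R) :=
      pow_le_pow_left₀ (by positivity) (mul_le_mul_of_nonneg_right hKw (by positivity)) _
    refine le_trans (mul_le_mul_of_nonneg_left e (by positivity)) ?_
    calc (a ^ (512 * R)) ^ 200 * (2 ^ (2 * L) * a ^ 16) ^ (2 ^ 16 * R) =
          2 ^ (131072 * (L * R)) * a ^ (1150976 * R) := by
          rw [mul_pow, ← pow_mul, ← pow_mul, ← pow_mul]
          rw [show 2 * L * (2 ^ 16 * R) = 131072 * (L * R) by ring,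
            show 512 * R * 200 = 102400 * R by ring, show 16 * (2 ^ 16 * R) = 1048576 * R by ring,
            show 1150976 * R = 102400 * R + 1048576 * R by ring, pow_add]
          ring
      _ ≤ a ^ (4194304 * R) := Nm_gen ha (d := R) (by omega) (by omega)
      _ = _ := by
          rw [← pow_mul, ← pow_mul]
          congr 1
          ring
  · -- tB.t2
    show (1 / p) ^ L * (a ^ 32) ^ 2 * (a ^ (512 * R)) ^ 20000 ≤ (a ^ 16) ^ (2 * (2 ^ 23 * R))
    calc (1 / p) ^ L * (a ^ 32) ^ 2 * (a ^ (512 * R)) ^ 20000 ≤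
          a ^ (4096 * R) * (a ^ 32) ^ 2 * (a ^ (512 * R)) ^ 20000 := by gcongr
      _ = a ^ (10244096 * R + 64) := by
          rw [← pow_mul, ← pow_mul, ← pow_add, ← pow_add]
          congr 1
          ring
      _ ≤ a ^ (268435456 * R) := pow_le_pow_right₀ ha1 (by omega)
      _ = _ := by
          rw [← pow_mul]
          congr 1
          ring
  · -- tB1.mB
    show 2 * ((L / 8 : ℕ) : ℝ) * ((R * (1600 * z) : ℕ) : ℝ) * a ≤ a ^ 4
    refine le_trans (mul_le_mul_of_nonneg_right hKw (by positivity)) ?_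
    have h := Nm_le ha (x := 2 * L) (y := 1) (y' := 4) (by omega) (by norm_num)
    rw [pow_one] at h
    exact h
  · -- tB1.pay
    show (a ^ (512 * R)) ^ 200 * (2 * ((L / 8 : ℕ) : ℝ) *
      ((R * (1600 * z) : ℕ) : ℝ) * a) ^ (2 ^ 16 * R) ≤ (a ^ 4) ^ (2 ^ 16 * R)
    have e : (2 * ((L / 8 : ℕ) : ℝ) * ((R * (1600 * z) : ℕ) : ℝ) * a) ^
        (2 ^ 16 * R) ≤ (2 ^ (2 * L) * a) ^ (2 ^ 16 * R) :=
      pow_le_pow_left₀ (by positivity) (mul_le_mul_of_nonneg_right hKw (by positivity)) _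
    refine le_trans (mul_le_mul_of_nonneg_left e (by positivity)) ?_
    calc (a ^ (512 * R)) ^ 200 * (2 ^ (2 * L) * a) ^ (2 ^ 16 * R) =
          2 ^ (131072 * (L * R)) * a ^ (167936 * R) := by
          rw [mul_pow, ← pow_mul, ← pow_mul]
          rw [show 2 * L * (2 ^ 16 * R) = 131072 * (L * R) by ring,
            show 512 * R * 200 = 102400 * R by ring,
            show 167936 * R = 102400 * R + 2 ^ 16 * R by ring, pow_add]
          ring
      _ ≤ a ^ (262144 * R) := Nm_gen ha (d := R) (by omega) (by omega)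
      _ = _ := by
          rw [← pow_mul]
          congr 1
          ring
  · -- tB1.t2
    show (1 / p) ^ L * a ^ 4 * (a ^ (512 * R)) ^ 20000 ≤ a ^ (2 * (2 ^ 23 * R))
    calc (1 / p) ^ L * a ^ 4 * (a ^ (512 * R)) ^ 20000 ≤
          a ^ (4096 * R) * a ^ 4 * (a ^ (512 * R)) ^ 20000 := by gcongr
      _ = a ^ (10244096 * R + 4) := by
          rw [← pow_mul, ← pow_add, ← pow_add]
          congr 1
          ring
      _ ≤ a ^ (16777216 * R) := pow_le_pow_right₀ ha1 (by omega)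
      _ = _ := by
          congr 1
          ring
  · -- pt0
    show (1 / p) ^ (L / (2 ^ 88 * R ^ 3) + 1) ≤ a ^ (512 * R)
    rw [← hX, ← ht]
    have e1 : ((1 / p) ^ (t + 1)) ^ 8 ≤ (a ^ (512 * R)) ^ 8 := by
      calc ((1 / p) ^ (t + 1)) ^ 8 = (1 / p) ^ ((t + 1) * 8) := by rw [← pow_mul]
        _ ≤ (1 / p) ^ L := pow_le_pow_right₀ h1p (by omega)
        _ ≤ a ^ (4096 * R) := hq
        _ = _ := by
            rw [← pow_mul]
            congr 1
            ring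
    exact le_of_pow_le_pow_left₀ (by norm_num) (by positivity) e1
  · -- No_le
    show (N : ℝ) ≤ (a ^ (512 * R)) ^ 900
    refine hNr.trans ?_
    rw [← han]
    calc a ^ (409600 * R) * 2 ^ (2 * L) = 2 ^ (2 * L) * a ^ (409600 * R) := by ring
      _ ≤ a ^ (460800 * R) := Nm_le ha (by omega) (by omega)
      _ = _ := by
          rw [← pow_mul]
          congr 1
          ring
  · -- Q_le
    show (N : ℝ) * (1 / p) ^ L * 8 ^ L ≤ (a ^ (512 * R)) ^ 1000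
    rw [Nm_pow8]
    calc (N : ℝ) * (1 / p) ^ L * 2 ^ (3 * L) ≤
          (n * 2 ^ (2 * L)) * a ^ (4096 * R) * 2 ^ (3 * L) := by gcongr
      _ = 2 ^ (5 * L) * a ^ (413696 * R) := by
          rw [← han, show 413696 * R = 409600 * R + 4096 * R by ring,
            show 5 * L = 2 * L + 3 * L by ring, pow_add, pow_add]
          ring
      _ ≤ a ^ (512000 * R) := Nm_le ha (by omega) (by omega)
      _ = _ := by
          rw [← pow_mul]
          congr 1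
          ring
  · -- Cb_nn
    show 0 ≤ a ^ (256000 * R)
    positivity
  · -- FCb
    show 8 * a ^ (256000 * R) * (1 / p) ^ (8 * L) * (a ^ (512 * R)) ^ 200 ≤ n
    have e1 : (1 / p) ^ (8 * L) ≤ a ^ (32768 * R) := by
      calc (1 / p) ^ (8 * L) = ((1 / p) ^ L) ^ 8 := by rw [← pow_mul]; congr 1; ring
        _ ≤ (a ^ (4096 * R)) ^ 8 := pow_le_pow_left₀ (by positivity) hq 8
        _ = _ := by ring
    calc 8 * a ^ (256000 * R) * (1 / p) ^ (8 * L) * (a ^ (512 * R)) ^ 200 ≤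
          8 * a ^ (256000 * R) * a ^ (32768 * R) * (a ^ (512 * R)) ^ 200 := by gcongr
      _ = 2 ^ 3 * a ^ (391168 * R) := by
          rw [← pow_mul, show 391168 * R = 256000 * R + 32768 * R + 512 * R * 200 by ring,
            pow_add, pow_add]
          ring
      _ ≤ a ^ (409600 * R) := Nm_le ha (by omega) (by omega)
      _ = n := han
  · -- FM
    show (2 : ℝ) ^ (14 * (2 ^ 16 * R) * L) ≤ a ^ (512 * R)
    have h := Nm_gen ha (x := 14 * (2 ^ 16 * R) * L) (y := 0) (y' := 512 * R) (d := 2 * R) (by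
      have : 14 * (2 ^ 16 * R) * L = 917504 * (L * R) := by ring
      have h2 : E * (2 * R) = 2 * (E * R) := by ring
      omega) (by omega)
    rw [pow_zero, mul_one] at h
    exact h
  · -- FD
    show ((2 : ℝ) ^ (48 * L) * ((2 ^ 67 * R ^ 2 : ℕ) : ℝ) ^ (20 * L) *
      (2 * L * ((2 ^ 67 * R ^ 2 : ℕ) : ℝ)) ^ (20 * (2 ^ 88 * R ^ 3))) ^ (2 * (2 ^ 16 * R)) ≤
      a ^ (512 * R)
    have hDT : ((2 ^ 67 * R ^ 2 : ℕ) : ℝ) ≤ 2 ^ T := by exact_mod_cast hRT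
    have hLD : 2 * (L : ℝ) * ((2 ^ 67 * R ^ 2 : ℕ) : ℝ) ≤ 2 ^ (m + T) := by
      rw [pow_add]
      refine mul_le_mul (by linarith) hDT (Nat.cast_nonneg _) (by positivity)
    have e1 : ((2 : ℝ) ^ (48 * L) * ((2 ^ 67 * R ^ 2 : ℕ) : ℝ) ^ (20 * L) *
      (2 * L * ((2 ^ 67 * R ^ 2 : ℕ) : ℝ)) ^ (20 * (2 ^ 88 * R ^ 3))) ^ (2 * (2 ^ 16 * R)) ≤
      ((2 : ℝ) ^ (48 * L) * (2 ^ T) ^ (20 * L) *
      (2 ^ (m + T)) ^ (20 * (2 ^ 88 * R ^ 3))) ^ (2 * (2 ^ 16 * R)) := by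
      refine pow_le_pow_left₀ (by positivity) ?_ _
      refine mul_le_mul (mul_le_mul_of_nonneg_left (pow_le_pow_left₀ (by positivity) hDT _)
        (by positivity)) (pow_le_pow_left₀ (by positivity) hLD _) (by positivity) (by positivity)
    refine e1.trans ?_
    rw [← pow_mul, ← pow_mul, ← pow_add, ← pow_add, ← pow_mul]
    have h := Nm_gen ha (x := (48 * L + T * (20 * L) + (m + T) * (20 * (2 ^ 88 * R ^ 3))) *
      (2 * (2 ^ 16 * R))) (y := 0) (y' := 512 * R) (d := 512 * R) (by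
      have f1 : (48 * L + T * (20 * L) + (m + T) * (20 * (2 ^ 88 * R ^ 3))) *
          (2 * (2 ^ 16 * R)) = 6291456 * (L * R) + 2621440 * (T * L * R) +
          (40 * 2 ^ 104 * R ^ 4) * m + (40 * 2 ^ 104 * R ^ 4) * T := by ring
      have f2 : 40 * 2 ^ 104 * R ^ 4 ≤ m := by omega
      have f3 : (40 * 2 ^ 104 * R ^ 4) * m ≤ L := (Nat.mul_le_mul_right _ f2).trans hm1
      have f4 : (40 * 2 ^ 104 * R ^ 4) * T ≤ T * L := by
        rw [mul_comm]
        refine Nat.mul_le_mul_left _ (f2.trans ?_)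
        exact le_trans (Nat.le_mul_of_pos_left _ (by omega)) hm1
      have f5 : E * (512 * R) = 4194304 * (T * L * R) := by rw [hE]; ring
      have f6 : 64 * (L * R) ≤ T * L * R := by
        rw [← mul_assoc]
        exact Nat.mul_le_mul_right _ hTL
      have f7 : T * L ≤ T * L * R := Nat.le_mul_of_pos_right _ hR
      have f8 : L ≤ L * R := Nat.le_mul_of_pos_right _ hR
      rw [f1, f5]
      omega) (by omega)
    rw [pow_zero, mul_one] at h
    exact h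
  · -- FC1
    show (64 : ℝ) * 2 ^ L * 4 ^ (L / 8) ≤ a ^ (512 * R)
    have h := Nm_le ha (x := 6 + L + 2 * (L / 8)) (y := 0) (y' := 512 * R) (by omega) (by omega)
    rw [pow_zero, mul_one] at h
    refine le_trans (le_of_eq ?_) h
    rw [pow_add, pow_add, pow_mul]
    norm_num
  · -- FL
    show (2 : ℝ) ^ (100 * L) ≤ a ^ (512 * R)
    have h := Nm_le ha (x := 100 * L) (y := 0) (y' := 512 * R) (by omega) (by omega)
    rw [pow_zero, mul_one] at h
    exact h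
  · -- FK
    show (4 * (L : ℝ)) ^ (240 * (2 ^ 88 * R ^ 3) * (2 ^ 23 * R)) ≤ a ^ (512 * R)
    have e1 : 240 * (2 ^ 88 * R ^ 3) * (2 ^ 23 * R) ≤ m := by
      have : 240 * (2 ^ 88 * R ^ 3) * (2 ^ 23 * R) = 240 * 2 ^ 111 * R ^ 4 := by ring
      omega
    have h := Nm_le ha (x := L) (y := 0) (y' := 512 * R) (by omega) (by omega)
    rw [pow_zero, mul_one] at h
    refine le_trans ?_ h
    calc (4 * (L : ℝ)) ^ (240 * (2 ^ 88 * R ^ 3) * (2 ^ 23 * R)) ≤ (4 * (L : ℝ)) ^ m :=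
          pow_le_pow_right₀ (by linarith) e1
      _ ≤ (2 ^ m) ^ m := pow_le_pow_left₀ (by positivity) hm3 _
      _ = 2 ^ (m * m) := by rw [← pow_mul]
      _ ≤ 2 ^ L := pow_le_pow_right₀ (by norm_num) hm1
  · -- FK2
    show (64 : ℝ) ^ L * 2 ^ (2 * (2 ^ 23 * R) * (L + R * (1600 * z) + 4)) ≤ a ^ (512 * R)
    rw [Nm_pow64, ← pow_add]
    have h := Nm_gen ha (x := 6 * L + 2 * (2 ^ 23 * R) * (L + R * (1600 * z) + 4)) (y := 0)
      (y' := 512 * R) (d := 512 * R) (by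
      have f1 : 2 * (2 ^ 23 * R) * (L + R * (1600 * z) + 4) ≤ 2 * (2 ^ 23 * R) * (2 * L) := by
        refine Nat.mul_le_mul_left _ ?_
        have : R * (1600 * z) = 1600 * (R * z) := by ring
        omega
      have f2 : 2 * (2 ^ 23 * R) * (2 * L) = 33554432 * (L * R) := by ring
      have f3 : E * (512 * R) = 512 * (E * R) := by ring
      have f4 : L ≤ L * R := Nat.le_mul_of_pos_right _ hR
      omega) (by omega)
    rw [pow_zero, mul_one] at h
    exact h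
  · -- FW
    show (2 : ℝ) ^ (3 * (R * (1600 * z)) * (2 ^ 88 * R ^ 3)) ≤ a ^ (512 * R)
    have h := Nm_le ha (x := 3 * (R * (1600 * z)) * (2 ^ 88 * R ^ 3)) (y := 0)
      (y' := 512 * R) (by
      have : 3 * (R * (1600 * z)) * (2 ^ 88 * R ^ 3) = 4800 * 2 ^ 88 * (R ^ 4 * z) := by ring
      omega) (by omega)
    rw [pow_zero, mul_one] at h
    exact h
  · -- FG3
    show (2 : ℝ) ^ (10 * L) * 64 ^ (R * (1600 * z)) ≤ (a ^ (512 * R)) ^ 3
    rw [Nm_pow64, ← pow_add, ← pow_mul]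
    have h := Nm_le ha (x := 10 * L + 6 * (R * (1600 * z))) (y := 0) (y' := 512 * R * 3) (by
      have : R * (1600 * z) = 1600 * (R * z) := by ring
      omega) (by omega)
    rw [pow_zero, mul_one] at h
    exact h
  · -- FT
    show 2 ^ (40 * L) * ((n : ℝ) ^ (2 * z) * (a ^ (512 * R)) ^ 2) ≤
      (a ^ (512 * R)) ^ (4 * (L / (2 ^ 88 * R ^ 3) + 1))
    rw [← hX, ← ht, ← han]
    calc 2 ^ (40 * L) * ((a ^ (409600 * R)) ^ (2 * z) * (a ^ (512 * R)) ^ 2) =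
          2 ^ (40 * L) * a ^ (819200 * (R * z) + 1024 * R) := by
          rw [← pow_mul, ← pow_mul, ← pow_add]
          congr 2
          ring
      _ ≤ a ^ (2048 * (R * t)) := Nm_le ha (by omega) (by
          have e1 : R ≤ R * z := Nat.le_mul_of_pos_right _ hz
          have e2 : 2 ^ 152 * (R * z) ≤ R * t := by
            calc 2 ^ 152 * (R * z) = R * (2 ^ 152 * z) := by ring
              _ ≤ R * t := Nat.mul_le_mul_left _ ht3
          omega)
      _ ≤ a ^ (512 * R * (4 * (t + 1))) := by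
          apply pow_le_pow_right₀ ha1
          have : 512 * R * (4 * (t + 1)) = 2048 * (R * t) + 2048 * R := by ring
          omega
      _ = _ := by rw [← pow_mul]
  · -- Fcm
    show 8 ^ L * ((n : ℝ) ^ (2 * z) * (a ^ (512 * R)) ^ 2) ≤ (a ^ (512 * R)) ^ (1600 * z + 3)
    rw [← han, Nm_pow8]
    calc 2 ^ (3 * L) * ((a ^ (409600 * R)) ^ (2 * z) * (a ^ (512 * R)) ^ 2) =
          2 ^ (3 * L) * a ^ (819200 * (R * z) + 1024 * R) := by
          rw [← pow_mul, ← pow_mul, ← pow_add]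
          congr 2
          ring
      _ ≤ a ^ (819200 * (R * z) + 1536 * R) := Nm_le ha (by omega) (by omega)
      _ = _ := by
          rw [← pow_mul]
          congr 1
          ring
  · -- FBp
    show (((1600 * z + 3 : ℕ) : ℝ) + 1) * a ^ 4 ≤ a ^ 8
    have e : ((1600 * z + 3 : ℕ) : ℝ) + 1 ≤ 2 ^ (1600 * z + 4) := by
      have := Nm_nat (1600 * z + 4)
      push_cast at this ⊢
      linarith
    refine le_trans (mul_le_mul_of_nonneg_right e (by positivity)) ?_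
    exact Nm_le ha (by omega) (by norm_num)
  · -- FTS
    show 2 ^ (L + R * (1600 * z) + 5) * ((R * (1600 * z) : ℕ) : ℝ) ^ 2 * a ^ 16 * (a ^ 8) ^ 2 ≤
      (a ^ 32) ^ 2
    have e1 : ((R * (1600 * z) : ℕ) : ℝ) ≤ 2 ^ L := by
      have : R * (1600 * z) ≤ L := by
        have : R * (1600 * z) = 1600 * (R * z) := by ring
        omega
      exact le_trans (by exact_mod_cast this) (Nm_nat L)
    calc 2 ^ (L + R * (1600 * z) + 5) * ((R * (1600 * z) : ℕ) : ℝ) ^ 2 * a ^ 16 * (a ^ 8) ^ 2 ≤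
          2 ^ (L + R * (1600 * z) + 5) * (2 ^ L) ^ 2 * a ^ 16 * (a ^ 8) ^ 2 := by gcongr
      _ = 2 ^ (3 * L + 1600 * (R * z) + 5) * a ^ 32 := by ring
      _ ≤ a ^ 64 := Nm_le ha (by omega) (by norm_num)
      _ = _ := by ring
  · -- kBp
    show (1 + 1 / a ^ 8) ^ (L / 8) ≤ 2
    refine Nm_exp ?_ (by positivity)
    have e1 : 2 * ((L / 8 : ℕ) : ℝ) ≤ 2 ^ L := by
      have : 2 * (L / 8) ≤ L := by omega
      exact le_trans (by exact_mod_cast this) (Nm_nat L)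
    refine e1.trans ?_
    have h := Nm_le ha (x := L) (y := 0) (y' := 8) (by omega) (by norm_num)
    rw [pow_zero, mul_one] at h
    exact h
  · -- kβ
    show (1 + 1 / (a ^ 32) ^ 2) ^ (L / 8) ≤ 2
    refine Nm_exp ?_ (by positivity)
    have e1 : 2 * ((L / 8 : ℕ) : ℝ) ≤ 2 ^ L := by
      have : 2 * (L / 8) ≤ L := by omega
      exact le_trans (by exact_mod_cast this) (Nm_nat L)
    refine e1.trans ?_
    rw [← pow_mul]
    have h := Nm_le ha (x := L) (y := 0) (y' := 32 * 2) (by omega) (by norm_num)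
    rw [pow_zero, mul_one] at h
    exact h
  · -- FX
    show 2 ^ (40 * L) * ((n : ℝ) ^ (2 * z) * (a ^ (512 * R)) ^ 2) ≤ (a ^ 8) ^ (120000 * R * z)
    rw [← han]
    calc 2 ^ (40 * L) * ((a ^ (409600 * R)) ^ (2 * z) * (a ^ (512 * R)) ^ 2) =
          2 ^ (40 * L) * a ^ (819200 * (R * z) + 1024 * R) := by
          rw [← pow_mul, ← pow_mul, ← pow_add]
          congr 2
          ring
      _ ≤ a ^ (960000 * (R * z)) := Nm_le ha (by omega) (by
          have : R ≤ R * z := Nat.le_mul_of_pos_right _ hz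
          omega)
      _ = _ := by
          rw [← pow_mul]
          congr 1
          ring
  · -- FE
    show 100 * ((R * (1600 * z) : ℕ) : ℝ) * 2 ^ (40 * L) * (a ^ 32) ^ (8 * (R * (1600 * z))) ≤
      8 ^ L / ((n : ℝ) ^ z * a ^ (512 * R)) * (a ^ 32) ^ (2 * (120000 * R * z))
    refine Nm_κ hD ?_
    rw [← han]
    have e1 : ((R * (1600 * z) : ℕ) : ℝ) ≤ 2 ^ L := by
      have : R * (1600 * z) ≤ L := by
        have : R * (1600 * z) = 1600 * (R * z) := by ring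
        omega
      exact le_trans (by exact_mod_cast this) (Nm_nat L)
    calc 100 * ((R * (1600 * z) : ℕ) : ℝ) * 2 ^ (40 * L) * (a ^ 32) ^ (8 * (R * (1600 * z))) *
          ((a ^ (409600 * R)) ^ z * a ^ (512 * R)) ≤
          2 ^ 7 * 2 ^ L * 2 ^ (40 * L) * (a ^ 32) ^ (8 * (R * (1600 * z))) *
          ((a ^ (409600 * R)) ^ z * a ^ (512 * R)) := by
            gcongr
            norm_num
      _ = 2 ^ (41 * L + 7) * a ^ (819200 * (R * z) + 512 * R) := by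
          rw [← pow_mul, ← pow_mul, show 41 * L + 7 = 7 + L + 40 * L by ring,
            show 819200 * (R * z) + 512 * R = 32 * (8 * (R * (1600 * z))) +
              (409600 * R * z + 512 * R) by ring, pow_add, pow_add, pow_add, pow_add]
          ring
      _ ≤ a ^ (7680000 * (R * z)) := Nm_le ha (by omega) (by
          have : R ≤ R * z := Nat.le_mul_of_pos_right _ hz
          omega)
      _ = 1 * (a ^ 32) ^ (2 * (120000 * R * z)) := by
          rw [one_mul, ← pow_mul]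
          congr 1
          ring
      _ ≤ 8 ^ L * (a ^ 32) ^ (2 * (120000 * R * z)) :=
          mul_le_mul_of_nonneg_right h8L (by positivity)
  · -- FZ
    show 2 * (a ^ 32) ^ (8 * (R * (1600 * z))) ≤
      8 ^ L / ((n : ℝ) ^ z * a ^ (512 * R)) * ((n : ℝ) ^ (2 * z) * (a ^ (512 * R)) ^ 2)
    refine Nm_κ hD ?_
    rw [← han]
    calc 2 * (a ^ 32) ^ (8 * (R * (1600 * z))) * ((a ^ (409600 * R)) ^ z * a ^ (512 * R)) =
          2 ^ 1 * a ^ (819200 * (R * z) + 512 * R) := by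
          rw [← pow_mul, ← pow_mul, show 819200 * (R * z) + 512 * R =
            32 * (8 * (R * (1600 * z))) + (409600 * R * z + 512 * R) by ring, pow_add, pow_add]
          ring
      _ ≤ a ^ (819200 * (R * z) + 1024 * R) := Nm_le ha (by omega) (by omega)
      _ = 1 * ((a ^ (409600 * R)) ^ (2 * z) * (a ^ (512 * R)) ^ 2) := by
          rw [one_mul, ← pow_mul, ← pow_mul, ← pow_add]
          congr 1
          ring
      _ ≤ 8 ^ L * ((a ^ (409600 * R)) ^ (2 * z) * (a ^ (512 * R)) ^ 2) :=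
          mul_le_mul_of_nonneg_right h8L (by positivity)
  · -- FZg
    show 2 * (a ^ 32) ^ (8 * (R * (1600 * z))) * 8 ^ (R * (1600 * z)) ≤
      8 ^ L / ((n : ℝ) ^ z * a ^ (512 * R)) * ((n : ℝ) ^ (2 * z) * a ^ (512 * R))
    refine Nm_κ hD ?_
    rw [← han, Nm_pow8, Nm_pow8]
    calc 2 * (a ^ 32) ^ (8 * (R * (1600 * z))) * 2 ^ (3 * (R * (1600 * z))) *
          ((a ^ (409600 * R)) ^ z * a ^ (512 * R)) =
          2 ^ (1 + 4800 * (R * z)) * a ^ (819200 * (R * z) + 512 * R) := by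
          rw [← pow_mul, ← pow_mul, show 1 + 4800 * (R * z) = 1 + 3 * (R * (1600 * z)) by ring,
            show 819200 * (R * z) + 512 * R =
            32 * (8 * (R * (1600 * z))) + (409600 * R * z + 512 * R) by ring, pow_add, pow_add,
            pow_add]
          ring
      _ ≤ 2 ^ (3 * L) * a ^ (819200 * (R * z) + 512 * R) := by
          refine mul_le_mul_of_nonneg_right ?_ (by positivity)
          exact pow_le_pow_right₀ (by norm_num) (by omega)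
      _ = _ := by
          rw [← pow_mul (a := a) (m := 409600 * R),
            show 819200 * (R * z) + 512 * R = 409600 * R * (2 * z) + 512 * R by ring, pow_add]
  · -- FGg
    show (8 : ℝ) * 64 ^ (R * (1600 * z)) ≤ 2 ^ L
    rw [Nm_pow64]
    calc (8 : ℝ) * 2 ^ (6 * (R * (1600 * z))) = 2 ^ (3 + 9600 * (R * z)) := by
          rw [pow_add, show 6 * (R * (1600 * z)) = 9600 * (R * z) by ring]
          norm_num
      _ ≤ 2 ^ L := pow_le_pow_right₀ (by norm_num) (by omega)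
  · -- FU
    show 8 ^ L * (a ^ 32) ^ (8 * (R * (1600 * z))) ≤
      8 ^ L / ((n : ℝ) ^ z * a ^ (512 * R)) * (a ^ (512 * R)) ^ (1600 * z + 1)
    refine Nm_κ hD ?_
    rw [← han, ← pow_mul, ← pow_mul, ← pow_mul, mul_assoc, ← pow_add, ← pow_add]
    refine le_of_eq ?_
    congr 2
    ring
  · -- FC
    show (a ^ 32) ^ (8 * (R * (1600 * z))) ≤
      8 ^ L / ((n : ℝ) ^ z * a ^ (512 * R)) * (n * p ^ (4 * L)) ^ (L - 1600 * z)
    refine Nm_κ hD ?_
    refine le_trans ?_ (mul_le_mul h8L (pow_le_pow_left₀ (by positivity) h4 _)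
      (by positivity) (by positivity))
    rw [← han, one_mul, ← pow_mul (a := a) (m := 393216 * R)]
    calc (a ^ 32) ^ (8 * (R * (1600 * z))) * ((a ^ (409600 * R)) ^ z * a ^ (512 * R)) =
          a ^ (819200 * (R * z) + 512 * R) := by
          rw [← pow_mul, ← pow_mul, ← pow_add, ← pow_add]
          congr 1
          ring
      _ ≤ a ^ (393216 * R * (L - 1600 * z)) := by
          apply pow_le_pow_right₀ ha1
          have e1 : 3 * z + 1 ≤ L - 1600 * z := by omega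
          calc 819200 * (R * z) + 512 * R ≤ 393216 * R * (3 * z + 1) := by
                have : 393216 * R * (3 * z + 1) = 1179648 * (R * z) + 393216 * R := by ring
                omega
            _ ≤ _ := Nat.mul_le_mul_left _ e1
  · -- F8
    show 2 * (R : ℝ) * 16 ^ L * 2 ^ (10 * L) * a ^ (512 * R) * (a ^ 32) ^ 2 ≤ n * p ^ (5 * L)
    refine le_trans ?_ h5
    have e1 : (R : ℝ) ≤ 2 ^ L := by
      have : R ≤ L := by omega
      exact le_trans (by exact_mod_cast this) (Nm_nat L)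
    rw [Nm_pow16]
    calc 2 * (R : ℝ) * 2 ^ (4 * L) * 2 ^ (10 * L) * a ^ (512 * R) * (a ^ 32) ^ 2 ≤
          2 * 2 ^ L * 2 ^ (4 * L) * 2 ^ (10 * L) * a ^ (512 * R) * (a ^ 32) ^ 2 := by gcongr
      _ = 2 ^ (15 * L + 1) * a ^ (512 * R + 64) := by ring
      _ ≤ a ^ (389120 * R) := Nm_le ha (by omega) (by omega)
  · -- F9'
    show (2 : ℝ) ^ L * (8 * 8 ^ (1600 * z)) ^ R ≤ 2 ^ (8 * L)
    rw [Nm_pow8 (1600 * z)]
    calc (2 : ℝ) ^ L * (8 * 2 ^ (3 * (1600 * z))) ^ R =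
          (2 : ℝ) ^ L * (2 ^ 3 * 2 ^ (3 * (1600 * z))) ^ R := by norm_num
      _ = 2 ^ (L + (3 + 3 * (1600 * z)) * R) := by
          rw [← pow_add, ← pow_mul, ← pow_add]
      _ ≤ 2 ^ (8 * L) := by
          apply pow_le_pow_right₀ (by norm_num)
          have : (3 + 3 * (1600 * z)) * R = 3 * R + 4800 * (R * z) := by ring
          omega
  · -- F10
    show (n : ℝ) ^ (2 * z) * a ^ (512 * R) * 8 ^ R * 2 ^ r * 8 ^ R ≤
      (n : ℝ) ^ (2 * z) * (a ^ (512 * R)) ^ 2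
    rw [Nm_pow8]
    calc (n : ℝ) ^ (2 * z) * a ^ (512 * R) * 2 ^ (3 * R) * 2 ^ r * 2 ^ (3 * R) =
          (n : ℝ) ^ (2 * z) * (2 ^ (6 * R + r) * a ^ (512 * R)) := by ring
      _ ≤ (n : ℝ) ^ (2 * z) * a ^ (1024 * R) := by
          refine mul_le_mul_of_nonneg_left ?_ (by positivity)
          exact Nm_le ha (by omega) (by omega)
      _ = _ := by
          rw [← pow_mul]
          congr 2
          ring
  · -- F10'
    show (2 : ℝ) ^ (8 * L) * 2 ^ r * (8 * 8 ^ (1600 * z)) ^ R ≤ 2 ^ (10 * L)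
    rw [Nm_pow8 (1600 * z)]
    calc (2 : ℝ) ^ (8 * L) * 2 ^ r * (8 * 2 ^ (3 * (1600 * z))) ^ R =
          (2 : ℝ) ^ (8 * L) * 2 ^ r * (2 ^ 3 * 2 ^ (3 * (1600 * z))) ^ R := by norm_num
      _ = 2 ^ (8 * L + r + (3 + 3 * (1600 * z)) * R) := by
          rw [← pow_add, ← pow_add, ← pow_mul, ← pow_add]
      _ ≤ 2 ^ (10 * L) := by
          apply pow_le_pow_right₀ (by norm_num)
          have : (3 + 3 * (1600 * z)) * R = 3 * R + 4800 * (R * z) := by ring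
          omega
  · -- F11
    show ((Nat.sqrt n + 1 : ℕ) : ℝ) * 2 ^ (10 * L) * a ^ (512 * R) ≤ n * p ^ (4 * L)
    refine le_trans ?_ h4
    have e1 : ((Nat.sqrt n : ℕ) : ℝ) ≤ a ^ (204800 * R) := by
      have e2 : ((Nat.sqrt n : ℕ) : ℝ) ^ 2 ≤ (a ^ (204800 * R)) ^ 2 := by
        have e3 : Nat.sqrt n ^ 2 ≤ n := by rw [pow_two]; exact Nat.sqrt_le n
        have e4 : ((Nat.sqrt n : ℕ) : ℝ) ^ 2 ≤ n := by exact_mod_cast e3
        refine e4.trans (le_of_eq ?_)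
        rw [← han, ← pow_mul]
        congr 1
        ring
      exact le_of_pow_le_pow_left₀ (by norm_num) (by positivity) e2
    have e2 : ((Nat.sqrt n + 1 : ℕ) : ℝ) ≤ 2 * a ^ (204800 * R) := by
      push_cast
      have : 1 ≤ a ^ (204800 * R) := one_le_pow₀ ha1
      linarith
    calc ((Nat.sqrt n + 1 : ℕ) : ℝ) * 2 ^ (10 * L) * a ^ (512 * R) ≤
          2 * a ^ (204800 * R) * 2 ^ (10 * L) * a ^ (512 * R) := by gcongr
      _ = 2 ^ (10 * L + 1) * a ^ (205312 * R) := by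
          rw [show 205312 * R = 204800 * R + 512 * R by ring, pow_add, pow_add]
          ring
      _ ≤ a ^ (393216 * R) := Nm_le ha (by omega) (by omega)
  · -- F12
    show (2 : ℝ) * 8 ^ L ≤ (n : ℝ) ^ (2 * z) * a ^ (512 * R) * 8 ^ R
    rw [Nm_pow8]
    have e1 : (1 : ℝ) ≤ (n : ℝ) ^ (2 * z) := one_le_pow₀ hn1
    have e2 : (1 : ℝ) ≤ 8 ^ R := one_le_pow₀ (by norm_num)
    have h := Nm_le ha (x := 3 * L + 1) (y := 0) (y' := 512 * R) (by omega) (by omega)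
    calc (2 : ℝ) * 2 ^ (3 * L) = 2 ^ (3 * L + 1) * a ^ 0 := by ring
      _ ≤ a ^ (512 * R) := h
      _ = 1 * a ^ (512 * R) * 1 := by ring
      _ ≤ _ := by gcongr
  · -- F12'
    show (2 : ℝ) * 64 ^ L ≤ 2 ^ (8 * L)
    rw [Nm_pow64]
    calc (2 : ℝ) * 2 ^ (6 * L) = 2 ^ (6 * L + 1) := by ring
      _ ≤ 2 ^ (8 * L) := pow_le_pow_right₀ (by norm_num) (by omega)

/-- The lines are few: at most `N ^ z0` lines, `2 z0 ≤ z`, `N ≤ n ^ 2`. -/
theorem numo_S (a : ℝ) (R L z n N r z0 : ℕ) (p : ℝ) (hR : 1 ≤ R) (hz : 2 * z0 ≤ z)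
    (hN : N ≤ n ^ 2) (ha : 2 ^ (2 ^ 19 * L) ≤ a) (hL : 1 ≤ L) (han : a ^ (409600 * R) = n) :
    2 * 8 ^ L * ((N : ℝ) ^ z0 * (numo a R L z n N r p).κ0) ≤ 1 := by
  have ha1 : 1 ≤ a := (one_le_pow₀ (by norm_num)).trans ha
  have ha0 : 0 < a := by linarith
  have hn0 : (0 : ℝ) < n := by rw [← han]; positivity
  have hn0' : 0 < n := by exact_mod_cast hn0
  have hn1 : (1 : ℝ) ≤ n := by exact_mod_cast hn0'
  have hNr : (N : ℝ) ≤ n ^ 2 := by exact_mod_cast hN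
  show 2 * 8 ^ L * ((N : ℝ) ^ z0 * (8 ^ L / ((n : ℝ) ^ z * a ^ (512 * R)))) ≤ 1
  have h1 : (N : ℝ) ^ z0 ≤ (n : ℝ) ^ z := by
    calc (N : ℝ) ^ z0 ≤ ((n : ℝ) ^ 2) ^ z0 := pow_le_pow_left₀ (by positivity) hNr z0
      _ = (n : ℝ) ^ (2 * z0) := by rw [← pow_mul]
      _ ≤ (n : ℝ) ^ z := pow_le_pow_right₀ hn1 hz
  have h2 : (2 : ℝ) ^ (6 * L + 1) * a ^ 0 ≤ a ^ (512 * R) :=
    Nm_le ha (by omega) (by omega)
  have hD : 0 < (n : ℝ) ^ z * a ^ (512 * R) := by positivity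
  calc 2 * 8 ^ L * ((N : ℝ) ^ z0 * (8 ^ L / ((n : ℝ) ^ z * a ^ (512 * R)))) ≤
        2 * 8 ^ L * ((n : ℝ) ^ z * (8 ^ L / ((n : ℝ) ^ z * a ^ (512 * R)))) := by
          gcongr
    _ = (n : ℝ) ^ z * (2 ^ (6 * L + 1) * a ^ 0) / ((n : ℝ) ^ z * a ^ (512 * R)) := by
        rw [Nm_pow8]
        ring
    _ ≤ (n : ℝ) ^ z * a ^ (512 * R) / ((n : ℝ) ^ z * a ^ (512 * R)) := by gcongr
    _ = 1 := div_self hD.ne'

end Pool.Agent.H49.RO
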