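/-
The numbers of the base theorem (helper49). `R = 128 c`, `L = k / R + 1`, `n = N / (R L)`.
-/
import Mathlib

set_option autoImplicit false

namespace Pool.Agent.H49.RO

/-- `2 ^ 81 c ^ 2 ≤ 2 ^ T` for `T = A / 2 ^ 34`, `A ^ 2 ≥ 2 ^ 90 c`. -/
theorem nqo_T (c A T : ℕ) (hc : 1 ≤ c) (hA : 2 ^ 90 * c ≤ A ^ 2) (hT : T = A / 2 ^ 34) :
    2 ^ 34 * T ≤ A ∧ 2000 ≤ T ∧ 2 ^ 81 * c ^ 2 ≤ 2 ^ T := by
  have h1 : 2 ^ 34 * T ≤ A := by rw [hT]; exact Nat.mul_div_le A _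
  have h2 : A < 2 ^ 34 * (T + 1) := by rw [hT]; exact Nat.lt_mul_div_succ A (by norm_num)
  have h3 : 2 ^ 45 ≤ A := by
    by_contra hcon
    push Not at hcon
    have h4 : A ^ 2 < (2 ^ 45) ^ 2 := Nat.pow_lt_pow_left hcon (by norm_num)
    have h5 : 2 ^ 90 ≤ 2 ^ 90 * c := Nat.le_mul_of_pos_right _ hc
    have h6 : (2 ^ 45) ^ 2 = 2 ^ 90 := by norm_num
    omega
  have h4 : 2000 ≤ T := by omega
  refine ⟨h1, h4, ?_⟩
  have h5 : 2 ^ 22 * c ≤ (T + 1) ^ 2 := by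
    have h6 : 2 ^ 68 * (2 ^ 22 * c) ≤ 2 ^ 68 * (T + 1) ^ 2 := by
      calc 2 ^ 68 * (2 ^ 22 * c) = 2 ^ 90 * c := by ring
        _ ≤ A ^ 2 := hA
        _ ≤ (2 ^ 34 * (T + 1)) ^ 2 := Nat.pow_le_pow_left h2.le 2
        _ = 2 ^ 68 * (T + 1) ^ 2 := by ring
    exact Nat.le_of_mul_le_mul_left h6 (by positivity)
  obtain ⟨q, hq⟩ : ∃ q, q = T / 8 := ⟨_, rfl⟩
  have h7 : 8 * q ≤ T := by rw [hq]; exact Nat.mul_div_le T 8
  have h8 : T < 8 * (q + 1) := by rw [hq]; exact Nat.lt_mul_div_succ T (by norm_num)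
  have h9 : T + 1 ≤ 2 ^ (q + 3) := by
    have e1 : q + 1 ≤ 2 ^ q := Nat.lt_two_pow_self
    calc T + 1 ≤ 8 * (q + 1) := h8
      _ ≤ 8 * 2 ^ q := Nat.mul_le_mul_left _ e1
      _ = 2 ^ (q + 3) := by rw [pow_add]; ring
  have h10 : c ≤ 2 ^ (2 * q) := by
    have e2 : 2 ^ 22 * c ≤ 2 ^ 22 * 2 ^ (2 * q) := by
      calc 2 ^ 22 * c ≤ (T + 1) ^ 2 := h5
        _ ≤ (2 ^ (q + 3)) ^ 2 := Nat.pow_le_pow_left h9 2
        _ = 2 ^ 6 * 2 ^ (2 * q) := by rw [← pow_mul, ← pow_add]; congr 1; ring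
        _ ≤ 2 ^ 22 * 2 ^ (2 * q) := Nat.mul_le_mul_right _ (by norm_num)
    exact Nat.le_of_mul_le_mul_left e2 (by positivity)
  calc 2 ^ 81 * c ^ 2 ≤ 2 ^ 81 * (2 ^ (2 * q)) ^ 2 :=
        Nat.mul_le_mul_left _ (Nat.pow_le_pow_left h10 2)
    _ = 2 ^ (81 + 4 * q) := by rw [← pow_mul, ← pow_add]; congr 1; ring
    _ ≤ 2 ^ T := Nat.pow_le_pow_right (by norm_num) (by omega)

theorem nqo (c z k N A R L n T : ℕ) (p : ℝ) (hc : 1 ≤ c) (hz : 1 ≤ z)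
    (hk : 2 ^ 155 * 2 ^ 155 * c ^ 9 * z ≤ k) (hA : 2 ^ 90 * c ≤ A ^ 2) (hNA : 2 ^ (A * k) ≤ N)
    (hp : (N : ℝ) ^ (-(c : ℝ) / k) ≤ p) (hR : R = 128 * c) (hL : L = k / R + 1)
    (hn : n = N / (R * L)) (hT : T = A / 2 ^ 34) :
    n * (R * L) ≤ N ∧ k ≤ R * L ∧ 2 ^ 240 * R ^ 8 * (2 * z) ≤ L ∧ 1 ≤ (n : ℝ) * p ^ (100 * L) ∧
      N ≤ n * 2 ^ (2 * L) ∧ N ≤ n ^ 2 ∧ 2 ^ (64 * L) ≤ n ∧ 64 ≤ T ∧ 2 ^ 67 * R ^ 2 ≤ 2 ^ T ∧
      ∃ a : ℝ, 2 ^ (2 ^ 13 * (T * L)) ≤ a ∧ a ^ (409600 * R) = n := by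
  obtain ⟨hTA, hT2, hTc⟩ := nqo_T c A T hc hA hT
  have hcz : c * z ≤ c ^ 9 * z := Nat.mul_le_mul_right _ (Nat.le_self_pow (by norm_num) c)
  have hcz1 : 1 ≤ c * z := Nat.mul_pos hc hz
  have hkcz : 2 ^ 70 * (c * z) ≤ k := by
    refine le_trans ?_ hk
    rw [mul_assoc]
    exact Nat.mul_le_mul (by norm_num) hcz
  have hkc : 2 ^ 70 * c ≤ k := by
    refine le_trans ?_ hkcz
    exact Nat.mul_le_mul_left _ (Nat.le_mul_of_pos_right c hz)
  have hk70 : 2 ^ 70 ≤ k := le_trans (Nat.le_mul_of_pos_right _ hc) hkc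
  have hRpos : 0 < R := by omega
  have hRk : R ≤ k := by omega
  have hRL1 : k < R * L := by
    rw [hL]
    exact Nat.lt_mul_div_succ k hRpos
  have hRL2 : R * L ≤ k + R := by
    rw [hL, mul_add, mul_one]
    exact Nat.add_le_add_right (Nat.mul_div_le k R) R
  have hRL3 : R * L ≤ 2 * k := by omega
  have hLpos : 1 ≤ L := by rw [hL]; exact Nat.le_add_left 1 _
  have hRLpos : 0 < R * L := Nat.mul_pos hRpos hLpos
  have c3 : 2 ^ 240 * R ^ 8 * (2 * z) ≤ L := by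
    rw [hL]
    refine le_trans ?_ (Nat.le_succ _)
    rw [Nat.le_div_iff_mul_le hRpos]
    refine le_trans ?_ hk
    calc 2 ^ 240 * R ^ 8 * (2 * z) * R = 2 ^ 240 * 2 ^ 64 * (c ^ 9 * z) := by rw [hR]; ring
      _ ≤ 2 ^ 155 * 2 ^ 155 * (c ^ 9 * z) := Nat.mul_le_mul_right _ (by norm_num)
      _ = 2 ^ 155 * 2 ^ 155 * c ^ 9 * z := by ring
  have hRL : 2 * R ≤ L := by
    refine le_trans ?_ c3
    calc 2 * R ≤ 2 * R ^ 8 := Nat.mul_le_mul_left _ (Nat.le_self_pow (by norm_num) R)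
      _ ≤ 2 ^ 240 * R ^ 8 := Nat.mul_le_mul_right _ (Nat.le_self_pow (by norm_num) 2)
      _ ≤ 2 ^ 240 * R ^ 8 * (2 * z) := Nat.le_mul_of_pos_right _ (by omega)
  have hkTk : k ≤ T * k := Nat.le_mul_of_pos_left _ (by omega)
  -- `4 k 2 ^ (2 ^ 33 T k) ≤ N`
  have hbig : 4 * k * 2 ^ (2 ^ 33 * (T * k)) ≤ N := by
    refine le_trans ?_ hNA
    have h1 : k ≤ 2 ^ k := Nat.lt_two_pow_self.le
    calc 4 * k * 2 ^ (2 ^ 33 * (T * k)) ≤ 4 * 2 ^ k * 2 ^ (2 ^ 33 * (T * k)) := by gcongr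
      _ = 2 ^ (2 + k + 2 ^ 33 * (T * k)) := by
        rw [pow_add, pow_add]
        norm_num
      _ ≤ 2 ^ (A * k) := by
        apply Nat.pow_le_pow_right (by norm_num)
        have h2 : 2 ^ 34 * (T * k) ≤ A * k := by
          calc 2 ^ 34 * (T * k) = 2 ^ 34 * T * k := by ring
            _ ≤ A * k := Nat.mul_le_mul_right _ hTA
        omega
  have hN4k : 4 * k ≤ N := le_trans (Nat.le_mul_of_pos_right _ (by positivity)) hbig
  have hnpos : 1 ≤ n := by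
    rw [hn, Nat.one_le_div_iff hRLpos]
    omega
  have hNn : N ≤ 2 * n * (R * L) := by
    have h1 : N < (R * L) * (N / (R * L) + 1) := Nat.lt_mul_div_succ N hRLpos
    rw [← hn] at h1
    calc N ≤ R * L * (n + 1) := h1.le
      _ ≤ R * L * (2 * n) := Nat.mul_le_mul_left _ (by omega)
      _ = 2 * n * (R * L) := by ring
  have hN4 : N ≤ 4 * k * n := by
    refine hNn.trans ?_
    calc 2 * n * (R * L) ≤ 2 * n * (2 * k) := Nat.mul_le_mul_left _ hRL3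
      _ = 4 * k * n := by ring
  have hn2 : 2 ^ (2 ^ 33 * (T * k)) ≤ n := by
    have h1 : 4 * k * 2 ^ (2 ^ 33 * (T * k)) ≤ 4 * k * n := hbig.trans hN4
    exact Nat.le_of_mul_le_mul_left h1 (by omega)
  have hLk : L ≤ k := by
    have : 2 * L ≤ R * L := Nat.mul_le_mul_right _ (by omega)
    omega
  have c7 : 2 ^ (64 * L) ≤ n := by
    refine le_trans (Nat.pow_le_pow_right (by norm_num) ?_) hn2
    omega
  have h4kn : 4 * k ≤ n := by
    refine le_trans ?_ hn2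
    have h1 : k ≤ 2 ^ k := Nat.lt_two_pow_self.le
    calc 4 * k ≤ 4 * 2 ^ k := Nat.mul_le_mul_left _ h1
      _ = 2 ^ (2 + k) := by
        rw [pow_add]
        norm_num
      _ ≤ _ := Nat.pow_le_pow_right (by norm_num) (by omega)
  have c6 : N ≤ n ^ 2 := by
    refine hN4.trans ?_
    rw [pow_two]
    exact Nat.mul_le_mul_right _ h4kn
  have c5 : N ≤ n * 2 ^ (2 * L) := by
    refine hNn.trans ?_
    have h1 : L ≤ 2 ^ L := Nat.lt_two_pow_self.le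
    calc 2 * n * (R * L) = n * (2 * R * L) := by ring
      _ ≤ n * (L * L) := Nat.mul_le_mul_left _ (Nat.mul_le_mul_right _ (by omega))
      _ ≤ n * (2 ^ L * 2 ^ L) := Nat.mul_le_mul_left _ (Nat.mul_le_mul h1 h1)
      _ = n * 2 ^ (2 * L) := by rw [← pow_add]; congr 2; ring
  have hNR : (1 : ℝ) ≤ N := by exact_mod_cast (by omega : 1 ≤ N)
  have hNR0 : (0 : ℝ) < N := by linarith
  have hkR : (2 : ℝ) ^ 70 ≤ k := by exact_mod_cast hk70
  have hkR0 : (0 : ℝ) < k := lt_of_lt_of_le (by norm_num) hkR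
  refine ⟨?_, hRL1.le, c3, ?_, c5, c6, c7, by omega, ?_, ?_⟩
  · rw [hn]; exact Nat.div_mul_le_self N (R * L)
  · -- 1 ≤ n p^(100 L)
    have hp0 : 0 < (N : ℝ) ^ (-(c : ℝ) / k) := Real.rpow_pos_of_pos hNR0 _
    have h1 : ((N : ℝ) ^ (-(c : ℝ) / k)) ^ (100 * L) ≤ p ^ (100 * L) :=
      pow_le_pow_left₀ hp0.le hp _
    have h2 : (N : ℝ) ^ (-(4 / 5 : ℝ)) ≤ ((N : ℝ) ^ (-(c : ℝ) / k)) ^ (100 * L) := by
      rw [← Real.rpow_natCast, ← Real.rpow_mul hNR0.le]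
      apply Real.rpow_le_rpow_of_exponent_le hNR
      have h3 : (500 : ℝ) * (c * L) ≤ 4 * k := by
        have h4 : 128 * (c * L) ≤ k + 128 * c := by
          calc 128 * (c * L) = R * L := by rw [hR]; ring
            _ ≤ k + R := hRL2
            _ = k + 128 * c := by rw [hR]
        have h5 : 500 * (c * L) ≤ 4 * k := by omega
        exact_mod_cast h5
      push_cast
      rw [div_mul_eq_mul_div, le_div_iff₀ hkR0]
      nlinarith
    have hnN : (N : ℝ) ^ (4 / 5 : ℝ) ≤ n := by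
      have h3 : (4 * (k : ℝ)) ≤ (N : ℝ) ^ (1 / 5 : ℝ) := by
        have h4 : (4 * (k : ℝ)) ^ 5 ≤ N := by
          have h5 : (4 * k) ^ 5 ≤ N := by
            refine le_trans ?_ hbig
            have h6 : (4 * k) ^ 4 ≤ 2 ^ (2 ^ 33 * (T * k)) := by
              have h7 : 4 * k ≤ 2 ^ (2 + k) := by
                have h1 : k ≤ 2 ^ k := Nat.lt_two_pow_self.le
                rw [pow_add]
                omega
              calc (4 * k) ^ 4 ≤ (2 ^ (2 + k)) ^ 4 := Nat.pow_le_pow_left h7 4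
                _ = 2 ^ ((2 + k) * 4) := by rw [← pow_mul]
                _ ≤ _ := Nat.pow_le_pow_right (by norm_num) (by omega)
            calc (4 * k) ^ 5 = 4 * k * (4 * k) ^ 4 := by ring
              _ ≤ _ := Nat.mul_le_mul_left _ h6
          exact_mod_cast h5
        have h6 : 4 * (k : ℝ) = ((4 * (k : ℝ)) ^ 5) ^ (1 / 5 : ℝ) := by
          rw [← Real.rpow_natCast, ← Real.rpow_mul (by positivity)]
          norm_num
        rw [h6]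
        exact Real.rpow_le_rpow (by positivity) h4 (by norm_num)
      have h4 : (N : ℝ) ≤ 4 * k * n := by exact_mod_cast hN4
      have h5 : (N : ℝ) = (N : ℝ) ^ (1 / 5 : ℝ) * (N : ℝ) ^ (4 / 5 : ℝ) := by
        rw [← Real.rpow_add hNR0]
        norm_num
      have h6 : 0 < (N : ℝ) ^ (1 / 5 : ℝ) := Real.rpow_pos_of_pos hNR0 _
      have h7 : (N : ℝ) ^ (1 / 5 : ℝ) * (N : ℝ) ^ (4 / 5 : ℝ) ≤ (N : ℝ) ^ (1 / 5 : ℝ) * n := by
        rw [← h5]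
        exact h4.trans (mul_le_mul_of_nonneg_right h3 (Nat.cast_nonneg n))
      exact le_of_mul_le_mul_left h7 h6
    have h3 : (1 : ℝ) = (N : ℝ) ^ (4 / 5 : ℝ) * (N : ℝ) ^ (-(4 / 5 : ℝ)) := by
      rw [← Real.rpow_add hNR0]
      norm_num
    rw [h3]
    exact mul_le_mul hnN (h2.trans h1) (Real.rpow_nonneg hNR0.le _) (Nat.cast_nonneg n)
  · -- T
    refine le_trans (le_of_eq ?_) hTc
    rw [hR]
    ring
  · -- the number a
    have hE : 409600 * R ≠ 0 := by omega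
    have hn0 : (0 : ℝ) ≤ n := Nat.cast_nonneg n
    refine ⟨(n : ℝ) ^ (((409600 * R : ℕ) : ℝ)⁻¹), ?_, Real.rpow_inv_natCast_pow hn0 hE⟩
    refine le_of_pow_le_pow_left₀ hE (Real.rpow_nonneg hn0 _) ?_
    rw [Real.rpow_inv_natCast_pow hn0 hE, ← pow_mul]
    have h1 : (2 : ℝ) ^ (2 ^ 33 * (T * k)) ≤ n := by exact_mod_cast hn2
    refine le_trans (pow_le_pow_right₀ (by norm_num) ?_) h1
    calc 2 ^ 13 * (T * L) * (409600 * R) = 2 ^ 13 * 409600 * (T * (R * L)) := by ring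
      _ ≤ 2 ^ 13 * 409600 * (T * (2 * k)) := by gcongr
      _ = 2 ^ 13 * 819200 * (T * k) := by ring
      _ ≤ 2 ^ 33 * (T * k) := Nat.mul_le_mul_right _ (by norm_num)

end Pool.Agent.H49.RO
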