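/-
With probability at least 1 - 1/N^4 all players are OK (helper11, helper49; as H11/RL/Rx).
-/
import Pool.Agent.H49.RO.Mp
import Pool.Agent.H49.RG.Rx
import Pool.Agent.H11.RO.Chr

set_option autoImplicit false
set_option linter.unusedSectionVars false

open Finset

namespace Pool.Agent.H49.RO

open Pool.Agent.H49.RG (Cl Ad Eqn nbr cell pts mem_cell mem_nbr mem_pts cell_sub cell_mono
  cell_anti cell_cell cell_eq Vb Rx_mem Rx_dis Rx_card reg_pr dsp_pr)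
open Pool.Agent.H82.RO (HH)
open Pool.Agent.H11.RO (chr_pr)
open Pool.Agent.H9.KR

variable {R L N : ℕ}

theorem Rx4_reg (c : Num) (hc : c.OK R L) (hN : c.n * (R * L) ≤ N)
    (hp16 : 1 ≤ (c.n : ℝ) * c.p ^ (16 * L)) (hn2 : 64 * (L + 1) * Real.log (N + 1) ≤ Real.sqrt c.n) :
    2 * (N : ℝ) * ((N : ℝ) + 1) ^ (8 * L) * Real.exp (-(c.n * c.p ^ (8 * L) / 8)) ≤ 1 / (2 * (N : ℝ) ^ 4) := by
  have hN1 : 1 ≤ N := by
    have h1 := Nat.mul_pos hc.n_pos (Nat.mul_pos hc.R_pos hc.L_pos)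
    omega
  have hNr : (1 : ℝ) ≤ N := by exact_mod_cast hN1
  have h1 : Real.sqrt c.n ≤ c.n * c.p ^ (8 * L) := by
    rw [Real.sqrt_le_left (by have := hc.p_pos; positivity)]
    have h2 : (c.n * c.p ^ (8 * L)) ^ 2 = c.n * (c.n * c.p ^ (16 * L)) := by
      rw [mul_pow, ← pow_mul]
      ring_nf
    rw [h2]
    have h3 : (0 : ℝ) ≤ c.n := Nat.cast_nonneg _
    nlinarith
  have hN1p : (0 : ℝ) < (N : ℝ) + 1 := by positivity
  have h2 : Real.exp (-(c.n * c.p ^ (8 * L) / 8)) ≤ (((N : ℝ) + 1) ^ (8 * L + 8))⁻¹ := by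
    rw [← Real.exp_log (pow_pos hN1p (8 * L + 8)), ← Real.exp_neg, Real.exp_le_exp, Real.log_pow]
    push_cast
    linarith
  calc 2 * (N : ℝ) * ((N : ℝ) + 1) ^ (8 * L) * Real.exp (-(c.n * c.p ^ (8 * L) / 8))
      ≤ 2 * (N : ℝ) * ((N : ℝ) + 1) ^ (8 * L) * (((N : ℝ) + 1) ^ (8 * L + 8))⁻¹ :=
        mul_le_mul_of_nonneg_left h2 (by positivity)
    _ = 2 * N / ((N : ℝ) + 1) ^ 8 := by
        rw [pow_add]
        field_simp
    _ ≤ 1 / (2 * (N : ℝ) ^ 4) := by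
        rw [div_le_div_iff₀ (by positivity) (by positivity)]
        have h3 : (N : ℝ) ^ 5 ≤ ((N : ℝ) + 1) ^ 5 :=
          pow_le_pow_left₀ (by positivity) (by linarith) 5
        have h4 : (8 : ℝ) ≤ ((N : ℝ) + 1) ^ 3 := by
          calc (8 : ℝ) = 2 ^ 3 := by norm_num
            _ ≤ _ := pow_le_pow_left₀ (by norm_num) (by linarith) 3
        calc 2 * (N : ℝ) * (2 * (N : ℝ) ^ 4) = 4 * (N : ℝ) ^ 5 := by ring
          _ ≤ 8 * ((N : ℝ) + 1) ^ 5 := by nlinarith [pow_nonneg hN1p.le 5]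
          _ ≤ ((N : ℝ) + 1) ^ 3 * ((N : ℝ) + 1) ^ 5 :=
              mul_le_mul_of_nonneg_right h4 (by positivity)
          _ = 1 * ((N : ℝ) + 1) ^ 8 := by ring

theorem Rx4_dsp (L N te : ℕ) (p : ℝ) (hN1 : 1 ≤ N) (hL : 1 ≤ L)
    (hte : 32 * ((L + 2) * Real.log N + L) ≤ p * te) (hp1 : p ≤ 1) :
    2 ^ L * ((N : ℝ) ^ (L + 1)) ^ te * Real.exp (-(p ^ (1 * 1) * (te : ℝ) ^ 2 / 8)) ≤ 1 / (N : ℝ) ^ 7 := by
  have hNr : (1 : ℝ) ≤ N := by exact_mod_cast hN1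
  have hN0 : (0 : ℝ) < N := by linarith
  have hlog : 0 ≤ Real.log N := Real.log_nonneg hNr
  have hL1 : (1 : ℝ) ≤ L := by exact_mod_cast hL
  set t : ℝ := (te : ℝ) with ht
  have ht0 : 0 ≤ t := Nat.cast_nonneg _
  have ht16 : 1 ≤ t := by
    have h1 : (32 : ℝ) ≤ p * t := by nlinarith
    nlinarith
  have e1 : (2 : ℝ) ^ L ≤ Real.exp L := by
    have h1 : (2 : ℝ) ≤ Real.exp 1 := by
      have := Real.add_one_le_exp (1 : ℝ)
      linarith
    calc (2 : ℝ) ^ L ≤ (Real.exp 1) ^ L := pow_le_pow_left₀ (by norm_num) h1 L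
      _ = Real.exp L := by rw [← Real.exp_nat_mul, mul_one]
  have e2 : ((N : ℝ) ^ (L + 1)) ^ te = Real.exp (t * ((L + 1) * Real.log N)) := by
    rw [← pow_mul, ← Real.exp_log (pow_pos hN0 ((L + 1) * te)), Real.log_pow]
    congr 1
    push_cast
    rw [ht]
    ring
  have e3 : 1 / (N : ℝ) ^ 7 = Real.exp (-(7 * Real.log N)) := by
    rw [Real.exp_neg, one_div, ← Real.exp_log (pow_pos hN0 7), Real.log_pow]
    push_cast
    rfl
  rw [e2, e3, one_mul, pow_one]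
  calc 2 ^ L * Real.exp (t * ((L + 1) * Real.log N)) * Real.exp (-(p * t ^ 2 / 8))
      ≤ Real.exp L * Real.exp (t * ((L + 1) * Real.log N)) * Real.exp (-(p * t ^ 2 / 8)) := by
        gcongr
    _ = Real.exp (L + t * ((L + 1) * Real.log N) + -(p * t ^ 2 / 8)) := by
        rw [← Real.exp_add, ← Real.exp_add]
    _ ≤ Real.exp (-(7 * Real.log N)) := by
        rw [Real.exp_le_exp]
        have h1 : t * (32 * ((L + 2) * Real.log N + L)) ≤ t * (p * t) :=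
          mul_le_mul_of_nonneg_left hte ht0
        have h2 : (L : ℝ) ≤ t * L := by nlinarith
        have h3 : 0 ≤ t * Real.log N := by positivity
        have h4 : Real.log N ≤ t * Real.log N := by nlinarith
        have h5 : 0 ≤ t * ((L : ℝ) * Real.log N) := by positivity
        have h6 : 0 ≤ t * (L : ℝ) := by positivity
        nlinarith

theorem Rx4_chr (L N K1 : ℕ) (x : ℝ) (hN1 : 1 ≤ N) (hK : 2 * K1 ≤ N)
    (hx : 80 * (L + 1) * Real.log (N + 1) ≤ x) :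
    (N : ℝ) * (((N : ℝ) + 1) ^ (8 * L) * (((N : ℝ) + 1) ^ (8 * L) *
      (((2 * K1 : ℕ) : ℝ) ^ (8 * L) * (2 * Real.exp (-x))))) ≤ 1 / (4 * (N : ℝ) ^ 4) := by
  have hNr : (1 : ℝ) ≤ N := by exact_mod_cast hN1
  have hN1p : (0 : ℝ) < (N : ℝ) + 1 := by positivity
  have hKr : ((2 * K1 : ℕ) : ℝ) ≤ (N : ℝ) + 1 := by
    have : ((2 * K1 : ℕ) : ℝ) ≤ N := by exact_mod_cast hK
    linarith
  have h2 : Real.exp (-x) ≤ (((N : ℝ) + 1) ^ (24 * L + 8))⁻¹ := by
    rw [← Real.exp_log (pow_pos hN1p (24 * L + 8)), ← Real.exp_neg, Real.exp_le_exp, Real.log_pow]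
    push_cast
    have h3 : 0 ≤ Real.log ((N : ℝ) + 1) := Real.log_nonneg (by linarith)
    have h4 : (0 : ℝ) ≤ L := Nat.cast_nonneg _
    nlinarith [mul_nonneg h4 h3]
  calc (N : ℝ) * (((N : ℝ) + 1) ^ (8 * L) * (((N : ℝ) + 1) ^ (8 * L) *
      (((2 * K1 : ℕ) : ℝ) ^ (8 * L) * (2 * Real.exp (-x))))) ≤
      N * (((N : ℝ) + 1) ^ (8 * L) * (((N : ℝ) + 1) ^ (8 * L) *
      (((N : ℝ) + 1) ^ (8 * L) * (2 * (((N : ℝ) + 1) ^ (24 * L + 8))⁻¹)))) := by
        gcongr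
    _ = 2 * N / ((N : ℝ) + 1) ^ 8 := by
        have e : ((N : ℝ) + 1) ^ (24 * L + 8) = ((N : ℝ) + 1) ^ (8 * L) * ((N : ℝ) + 1) ^ (8 * L) *
            ((N : ℝ) + 1) ^ (8 * L) * ((N : ℝ) + 1) ^ 8 := by
          rw [← pow_add, ← pow_add, ← pow_add]
          congr 1
          ring
        rw [e]
        field_simp
    _ ≤ 1 / (4 * (N : ℝ) ^ 4) := by
        rw [div_le_div_iff₀ (by positivity) (by positivity)]
        have h3 : (N : ℝ) ^ 5 ≤ ((N : ℝ) + 1) ^ 5 :=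
          pow_le_pow_left₀ (by positivity) (by linarith) 5
        have h4 : (8 : ℝ) ≤ ((N : ℝ) + 1) ^ 3 := by
          calc (8 : ℝ) = 2 ^ 3 := by norm_num
            _ ≤ _ := pow_le_pow_left₀ (by norm_num) (by linarith) 3
        calc 2 * (N : ℝ) * (4 * (N : ℝ) ^ 4) = 8 * (N : ℝ) ^ 5 := by ring
          _ ≤ 8 * ((N : ℝ) + 1) ^ 5 := by nlinarith [pow_nonneg hN1p.le 5]
          _ ≤ ((N : ℝ) + 1) ^ 3 * ((N : ℝ) + 1) ^ 5 :=
              mul_le_mul_of_nonneg_right h4 (by positivity)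
          _ = 1 * ((N : ℝ) + 1) ^ 8 := by ring

/-- The edge property from the dispersion event. -/
theorem Rx4_edge {G : SimpleGraph (Fin N)} {V : Fin L → Finset (Fin N)} {Out : Finset (Fin N)}
    {te : ℕ} (j : Fin L)
    (hd : ¬ ∃ T : Finset (Fin L), T.card = 1 ∧ ∃ x : Fin te → Fin L → Fin N,
        (∀ i, ∀ j ∈ T, x i j ∈ V j) ∧ (∀ i i', i ≠ i' → ∀ j ∈ T, x i j ≠ x i' j) ∧
        ∃ y : Fin te → Finset (Fin N), (∀ i, y i ⊆ Out) ∧ (∀ i, (y i).card = 1) ∧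
        (∀ i i', i ≠ i' → Disjoint (y i) (y i')) ∧ ∀ i i', ¬ Ad G T (x i) (y i'))
    (X Y : Finset (Fin N)) (hX : X ⊆ V j) (hY : Y ⊆ Out) (hXc : te ≤ X.card) (hYc : te ≤ Y.card) :
    ∃ x ∈ X, ∃ y ∈ Y, G.Adj x y := by
  by_contra hcon
  push Not at hcon
  refine hd ⟨{j}, card_singleton _, fun i _ => X.orderEmbOfFin rfl (Fin.castLE hXc i), ?_, ?_,
    fun i => {Y.orderEmbOfFin rfl (Fin.castLE hYc i)}, ?_, fun i => card_singleton _, ?_, ?_⟩
  · intro i j' hj'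
    rw [mem_singleton] at hj'
    subst hj'
    exact hX (orderEmbOfFin_mem _ _ _)
  · intro i i' hii j' _ h
    apply hii
    have h1 := (X.orderEmbOfFin rfl).injective h
    exact Fin.castLE_injective _ h1
  · intro i v hv
    rw [mem_singleton] at hv
    subst hv
    exact hY (orderEmbOfFin_mem _ _ _)
  · intro i i' hii
    rw [disjoint_singleton]
    intro h
    apply hii
    have h1 := (Y.orderEmbOfFin rfl).injective h
    exact Fin.castLE_injective _ h1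
  · intro i i' h
    have h1 := h j (mem_singleton_self j) _ (mem_singleton_self _)
    exact hcon _ (orderEmbOfFin_mem _ _ _) _ (orderEmbOfFin_mem _ _ _) h1

theorem rnd_ok4 (c : Num) (hc : c.OK R L) (p : unitInterval) (hp : c.p = (p : ℝ))
    (hN : c.n * (R * L) ≤ N) (hNo : c.No = N) (hs : c.s = 8 * L)
    (hp16 : 1 ≤ (c.n : ℝ) * c.p ^ (16 * L))
    (hn2 : 64 * (L + 1) * Real.log (N + 1) ≤ Real.sqrt c.n)
    (hte : 32 * ((L + 2) * Real.log N + L) ≤ c.p * c.te)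
    (hCb : 0 < c.Cb) (hcb : 80 * (L + 1) * Real.log (N + 1) ≤ c.Cb ^ 2 / (2 * c.n)) :
    (SimpleGraph.binomialRandom (Fin N) p).real
      {G | ¬ ∀ a : Fin R, (pl G (fun (a : Fin R) (j : Fin L) => Vb R c.n N a j) a).OK c} ≤ 1 / (N : ℝ) ^ 4 := by
  classical
  have hN1 : 1 ≤ N := by
    have h1 := Nat.mul_pos hc.n_pos (Nat.mul_pos hc.R_pos hc.L_pos)
    omega
  have hNr : (1 : ℝ) ≤ N := by exact_mod_cast hN1
  have hnpos := hc.n_pos
  have hRN : R ≤ N := by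
    calc R = 1 * (R * 1) := by ring
      _ ≤ c.n * (R * L) := Nat.mul_le_mul hc.n_pos (Nat.mul_le_mul_left _ hc.L_pos)
      _ ≤ N := hN
  have hKN : 2 * c.K1 ≤ N := by
    have h1 := hc.K_le
    have h2 : L ≤ c.n * (R * L) := by
      calc L = 1 * (1 * L) := by ring
        _ ≤ c.n * (R * L) := Nat.mul_le_mul hc.n_pos (Nat.mul_le_mul_right _ hc.R_pos)
    omega
  have hK1 : 1 ≤ 2 * c.K1 := by
    have h1 := hc.wK
    have h2 := hc.KX_pos
    omega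
  set V : Fin R → Fin L → Finset (Fin N) := fun (a : Fin R) (j : Fin L) => Vb R c.n N a j with hV
  have hVd : ∀ (a a' : Fin R) (j j' : Fin L), (a ≠ a' ∨ j ≠ j') → Disjoint (V a j) (V a' j') := by
    intro a a' j j' h
    refine Rx_dis a.2 a'.2 ?_
    rcases h with h | h
    · exact Or.inl fun h' => h (Fin.ext h')
    · exact Or.inr fun h' => h (Fin.ext h')
  have hVc : ∀ (a : Fin R) (j : Fin L), (V a j).card = c.n := by
    intro a j
    refine Rx_card hnpos ?_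
    have h1 : (a : ℕ) + R * j + 1 ≤ R * L := by
      have h2 := a.2
      have h3 := j.2
      have h4 : R * (j + 1) ≤ R * L := Nat.mul_le_mul_left R h3
      have h5 : R * ((j : ℕ) + 1) = R * j + R := by ring
      omega
    calc ((a : ℕ) + R * j + 1) * c.n ≤ (R * L) * c.n := Nat.mul_le_mul_right _ h1
      _ = c.n * (R * L) := by ring
      _ ≤ N := hN
  have hOut : ∀ (G : SimpleGraph (Fin N)) (a : Fin R) (j : Fin L), Disjoint (pl G V a).Out ((pl G V a).V j) := by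
    intro G a j
    rw [disjoint_left]
    intro v hv hv'
    rw [mem_pl_Out] at hv
    obtain ⟨b, hb, j', h1⟩ := hv
    exact disjoint_left.1 (hVd b a j' j (Or.inl hb)) h1 hv'
  set Bs : Finset (Finset (Fin N)) := (univ : Finset (Fin R × Fin L)).image (fun x => V x.1 x.2) with hBs
  have hBsc : Bs.card ≤ N := by
    refine card_image_le.trans ?_
    rw [card_univ, Fintype.card_prod, Fintype.card_fin, Fintype.card_fin]
    refine le_trans ?_ hN
    exact Nat.le_mul_of_pos_left _ hnpos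
  have hBsr : (Bs.card : ℝ) ≤ N := by exact_mod_cast hBsc
  have hBc : ∀ B ∈ Bs, B.card = c.n := by
    intro B hB
    obtain ⟨x, _, rfl⟩ := mem_image.1 hB
    exact hVc _ _
  rw [real_eq_pr p]
  set w := fun G : SimpleGraph (Fin N) => (SimpleGraph.binomialRandom (Fin N) p).real {G} with hw'
  have hwn : ∀ G, 0 ≤ w G := (rsub_gnp (V := Fin N) p).nonneg
  have hp0 : 0 < (p : ℝ) := by rw [← hp]; exact hc.p_pos
  have hE1 := reg_pr (N := N) p hp0 c.n (8 * L) hnpos Bs hBc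
  have hE3 := chr_pr (N := N) p hp0 c.n (8 * L) (2 * c.K1) hnpos hK1 Bs hBc c.Cb hCb
  have hE2 := pr_exists_le_card hwn (univ : Finset (Fin R)) (fun a G => ∃ T : Finset (Fin L), T.card = 1 ∧
        ∃ x : Fin c.te → Fin L → Fin N,
        (∀ i, ∀ j ∈ T, x i j ∈ V a j) ∧ (∀ i i', i ≠ i' → ∀ j ∈ T, x i j ≠ x i' j) ∧
        ∃ y : Fin c.te → Finset (Fin N), (∀ i, y i ⊆ (pl (⊥ : SimpleGraph (Fin N)) V a).Out) ∧
        (∀ i, (y i).card = 1) ∧
        (∀ i i', i ≠ i' → Disjoint (y i) (y i')) ∧ ∀ i i', ¬ Ad G T (x i) (y i')) (1 / (N : ℝ) ^ 7) (by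
    intro a _
    refine (dsp_pr p (V a) (pl (⊥ : SimpleGraph (Fin N)) V a).Out
      (fun i j hij => hVd a a i j (Or.inr hij)) (fun j => hOut ⊥ a j) 1 1 c.te).trans ?_
    rw [← hp]
    exact Rx4_dsp L N c.te c.p hN1 hc.L_pos hte hc.p_le)
  refine (pr_mono hwn ?_).trans ((pr_or_le hwn _ _).trans
    (le_trans (add_le_add ((pr_or_le hwn _ _).trans (add_le_add hE1 hE3)) hE2) ?_))
  · intro G hG
    by_contra hcon
    push Not at hcon
    obtain ⟨⟨hr, hch⟩, hd⟩ := hcon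
    refine hG fun a => ?_
    have hreg : ∀ (j : Fin L) (S : Finset (Fin N)), S.card ≤ c.s → Disjoint S (V a j) →
        ((c.n : ℝ) * c.p ^ S.card / 8 ≤ (nbr G (V a j) S).card ∧
          ((nbr G (V a j) S).card : ℝ) ≤ 8 * (c.n * c.p ^ S.card)) := by
      intro j S hS hSd
      rw [hp]
      exact hr (V a j) (mem_image.2 ⟨(a, j), mem_univ _, rfl⟩) S (by rw [← hs]; exact hS) hSd
    refine ⟨fun i j hij => hVd a a i j (Or.inr hij), fun j => hOut G a j, fun j => hVc a j, ?_,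
      fun j S hS hSd => (hreg j S hS hSd).1, fun j S hS hSd => (hreg j S hS hSd).2, ?_, ?_⟩
    · rw [hNo]
      exact (card_le_univ _).trans (by rw [Fintype.card_fin])
    · intro j A D hA hD hAD hADc m hm hm1
      rw [hp]
      exact hch (V a j) (mem_image.2 ⟨(a, j), mem_univ _, rfl⟩) A D (by omega) (by omega) hA hD hAD m
        hm hm1
    · intro j X Y hX hY hXc hYc
      refine Rx4_edge (V := V a) (Out := (pl G V a).Out) j ?_ X Y hX hY hXc hYc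
      rintro ⟨T, hT, x, hx, hxd, y, hy, hyc, hyd, hA⟩
      obtain ⟨i, i', h3⟩ := hd a (mem_univ a) T hT x hx hxd y hy hyc hyd
      exact hA i i' h3
  · have hNr3 : (0 : ℝ) < N := by linarith
    have e1 : 2 * (Bs.card : ℝ) * ((N : ℝ) + 1) ^ (8 * L) * Real.exp (-(c.n * (p : ℝ) ^ (8 * L) / 8)) ≤ 1 / (2 * (N : ℝ) ^ 4) := by
      have h1 := Rx4_reg c hc hN hp16 hn2
      rw [hp] at h1
      refine le_trans ?_ h1
      gcongr
    have e3 : (Bs.card : ℝ) * (((N : ℝ) + 1) ^ (8 * L) * (((N : ℝ) + 1) ^ (8 * L) *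
        (((2 * c.K1 : ℕ) : ℝ) ^ (8 * L) * (2 * Real.exp (-(c.Cb ^ 2 / (2 * c.n))))))) ≤
        1 / (4 * (N : ℝ) ^ 4) := by
      refine le_trans ?_ (Rx4_chr L N c.K1 (c.Cb ^ 2 / (2 * c.n)) hN1 hKN hcb)
      gcongr
    have e2 : ((univ : Finset (Fin R)).card : ℝ) * (1 / (N : ℝ) ^ 7) ≤ 1 / (4 * (N : ℝ) ^ 4) := by
      have h1 : ((univ : Finset (Fin R)).card : ℝ) ≤ N := by
        rw [card_univ, Fintype.card_fin]
        exact_mod_cast hRN
      have h8 : (4 : ℝ) ≤ N := by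
        have h9 : 8 ≤ N := by
          have h10 := hc.K_le
          have h11 := hc.wK
          have h12 := hc.KX_pos
          have h13 : L ≤ c.n * (R * L) := by
            calc L = 1 * (1 * L) := by ring
              _ ≤ c.n * (R * L) := Nat.mul_le_mul hc.n_pos (Nat.mul_le_mul_right _ hc.R_pos)
          omega
        have : (8 : ℝ) ≤ N := by exact_mod_cast h9
        linarith
      rw [mul_one_div, div_le_div_iff₀ (by positivity) (by positivity)]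
      calc ((univ : Finset (Fin R)).card : ℝ) * (4 * (N : ℝ) ^ 4) ≤ N * (N * (N : ℝ) ^ 4) := by
            gcongr
        _ = 1 * (N : ℝ) ^ 6 := by ring
        _ ≤ 1 * (N : ℝ) ^ 7 := by
            rw [one_mul, one_mul]
            exact pow_le_pow_right₀ hNr (by norm_num)
    calc _ ≤ 1 / (2 * (N : ℝ) ^ 4) + 1 / (4 * (N : ℝ) ^ 4) + 1 / (4 * (N : ℝ) ^ 4) :=
          add_le_add (add_le_add e1 e3) e2
      _ = 1 / (N : ℝ) ^ 4 := by field_simp; ring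

theorem Rx4_log (n L N : ℕ) (hL : 64 ≤ L) (hLn : 2 ^ (64 * L) ≤ n) (hN : N ≤ n ^ 2) (hN1 : 1 ≤ N) :
    ∃ y : ℝ, 2 ^ 200 ≤ y ∧ (n : ℝ) = y ^ 16 ∧ Real.log n ≤ 16 * y ∧ (L : ℝ) ≤ 32 * y ∧
      Real.log (N + 1) ≤ 48 * y := by
  have hn0 : 0 < n := lt_of_lt_of_le (by positivity) hLn
  have hnr : (0 : ℝ) < n := by exact_mod_cast hn0
  have hn1 : (1 : ℝ) ≤ n := by exact_mod_cast hn0
  have hy0 : (0 : ℝ) < (n : ℝ) ^ ((1 : ℝ) / 16) := Real.rpow_pos_of_pos hnr _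
  have hy16 : ((n : ℝ) ^ ((1 : ℝ) / 16)) ^ 16 = n := by
    rw [← Real.rpow_natCast, ← Real.rpow_mul hnr.le]
    norm_num
  have hbig : (2 : ℝ) ^ 4096 ≤ n := by
    have h0 : 4096 ≤ 64 * L := by omega
    have h1 : 2 ^ 4096 ≤ 2 ^ (64 * L) := Nat.pow_le_pow_right (by norm_num) h0
    have h2 : (2 ^ 4096 : ℕ) ≤ n := h1.trans hLn
    exact_mod_cast h2
  have hy2 : (2 : ℝ) ^ 256 ≤ (n : ℝ) ^ ((1 : ℝ) / 16) := by
    have h1 : ((2 : ℝ) ^ 256) ^ 16 ≤ ((n : ℝ) ^ ((1 : ℝ) / 16)) ^ 16 := by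
      rw [hy16, ← pow_mul]
      exact hbig
    exact le_of_pow_le_pow_left₀ (by norm_num) hy0.le h1
  have hlog : Real.log n = 16 * Real.log ((n : ℝ) ^ ((1 : ℝ) / 16)) := by
    rw [Real.log_rpow hnr]
    ring
  have hlog2 : Real.log ((n : ℝ) ^ ((1 : ℝ) / 16)) ≤ (n : ℝ) ^ ((1 : ℝ) / 16) :=
    (Real.log_le_sub_one_of_pos hy0).trans (by linarith)
  have hlogn : Real.log n ≤ 16 * (n : ℝ) ^ ((1 : ℝ) / 16) := by
    rw [hlog]
    linarith
  refine ⟨(n : ℝ) ^ ((1 : ℝ) / 16), ?_, hy16.symm, hlogn, ?_, ?_⟩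
  · exact le_trans (pow_le_pow_right₀ (by norm_num) (by norm_num)) hy2
  · have h1 : ((2 : ℝ)) ^ (64 * L) ≤ n := by exact_mod_cast hLn
    have h2 : (64 * L : ℕ) * Real.log 2 ≤ Real.log n := by
      rw [← Real.log_pow]
      exact Real.log_le_log (by positivity) h1
    have h4 : (1 / 2 : ℝ) ≤ Real.log 2 := by
      have := Real.log_two_gt_d9
      linarith
    have h5 : (0 : ℝ) ≤ L := Nat.cast_nonneg _
    push_cast at h2
    nlinarith
  · have h1 : ((N : ℝ) + 1) ≤ 2 * (n : ℝ) ^ 2 := by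
      have h2 : (N : ℝ) ≤ (n : ℝ) ^ 2 := by exact_mod_cast hN
      have h3 : (1 : ℝ) ≤ (n : ℝ) ^ 2 := one_le_pow₀ hn1
      linarith
    have h2 : Real.log ((N : ℝ) + 1) ≤ Real.log (2 * (n : ℝ) ^ 2) :=
      Real.log_le_log (by positivity) h1
    rw [Real.log_mul (by norm_num) (by positivity), Real.log_pow] at h2
    have h3 : Real.log 2 ≤ 1 := by
      have := Real.log_two_lt_d9
      linarith
    have h4 : (1 : ℝ) ≤ (n : ℝ) ^ ((1 : ℝ) / 16) := le_trans (by norm_num) hy2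
    push_cast at h2
    linarith

theorem rnd_ok5 (c : Num) (hc : c.OK R L) (p : unitInterval) (hp : c.p = (p : ℝ))
    (hN : c.n * (R * L) ≤ N) (hNo : c.No = N) (hs : c.s = 8 * L)
    (hp100 : 1 ≤ (c.n : ℝ) * c.p ^ (100 * L)) (hCb : (c.n : ℝ) ^ 5 ≤ c.Cb ^ 8)
    (hte : Real.sqrt c.n ≤ c.te) (hNn : N ≤ c.n ^ 2) (hL : 2 ^ (64 * L) ≤ c.n) :
    (SimpleGraph.binomialRandom (Fin N) p).real
      {G | ¬ ∀ a : Fin R, (pl G (fun (a : Fin R) (j : Fin L) => Vb R c.n N a j) a).OK c} ≤ 1 / (N : ℝ) ^ 4 := by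
  have hN1 : 1 ≤ N := by
    have h1 := Nat.mul_pos hc.n_pos (Nat.mul_pos hc.R_pos hc.L_pos)
    omega
  have hL16 : 64 ≤ L := by
    have h1 := hc.K_le
    have h2 := hc.DK
    have h3 : 320 ≤ c.D := by
      by_contra hcon
      push Not at hcon
      have h5 : c.D ^ 2 < 320 ^ 2 := Nat.pow_lt_pow_left hcon (by norm_num)
      have h6 := hc.D2
      have h7 : 2000000 * (1 + 1) * 16 ≤ 2000000 * (c.μ + c.kl) * c.X :=
        Nat.mul_le_mul (Nat.mul_le_mul_left _ (Nat.add_le_add hc.μ_pos hc.kl_pos)) hc.X_ge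
      omega
    have h5 : c.D ≤ c.D * c.μ * c.t0 := by
      rw [mul_assoc]
      exact Nat.le_mul_of_pos_right _ (Nat.mul_pos hc.μ_pos hc.t0_pos)
    omega
  obtain ⟨y, hy, hny, hlog, hLy, hlogN⟩ := Rx4_log c.n L N hL16 hL hNn hN1
  have hp0 := hc.p_pos
  have hp1 := hc.p_le
  have hy1 : (1 : ℝ) ≤ y := le_trans (by norm_num) hy
  have hy0 : (0 : ℝ) < y := by linarith
  have hnr : (0 : ℝ) < c.n := by exact_mod_cast hc.n_pos
  have hLr : (64 : ℝ) ≤ L := by exact_mod_cast hL16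
  have hlogN0 : 0 ≤ Real.log ((N : ℝ) + 1) := Real.log_nonneg (by
    have : (0 : ℝ) ≤ N := Nat.cast_nonneg _
    linarith)
  have hlogNN : Real.log (N : ℝ) ≤ Real.log ((N : ℝ) + 1) := by
    have : (1 : ℝ) ≤ N := by exact_mod_cast hN1
    exact Real.log_le_log (by linarith) (by linarith)
  have hprod : ((L : ℝ) + 2) * Real.log ((N : ℝ) + 1) ≤ 2 ^ 12 * y ^ 2 := by
    have h1 : (L : ℝ) + 2 ≤ 64 * y := by nlinarith
    calc ((L : ℝ) + 2) * Real.log ((N : ℝ) + 1) ≤ (64 * y) * (48 * y) :=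
          mul_le_mul h1 hlogN hlogN0 (by positivity)
      _ ≤ 2 ^ 12 * y ^ 2 := by nlinarith [sq_nonneg y]
  have hprod1 : ((L : ℝ) + 1) * Real.log ((N : ℝ) + 1) ≤ 2 ^ 12 * y ^ 2 := by
    refine le_trans (mul_le_mul_of_nonneg_right (by linarith) hlogN0) hprod
  have hsq : Real.sqrt c.n = y ^ 8 := by
    rw [hny, show (y : ℝ) ^ 16 = (y ^ 8) ^ 2 by ring]
    exact Real.sqrt_sq (by positivity)
  have hy5 : (2 : ℝ) ^ 100 * y ^ 2 ≤ y ^ 3 := by
    have h1 : (2 : ℝ) ^ 100 ≤ y := le_trans (by norm_num) hy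
    calc (2 : ℝ) ^ 100 * y ^ 2 ≤ y * y ^ 2 := mul_le_mul_of_nonneg_right h1 (by positivity)
      _ = y ^ 3 := by ring
  refine rnd_ok4 c hc p hp hN hNo hs ?_ ?_ ?_ ?_ ?_
  · refine hp100.trans (mul_le_mul_of_nonneg_left ?_ hnr.le)
    exact pow_le_pow_of_le_one hp0.le hp1 (by omega)
  · rw [hsq]
    have h1 : y ^ 3 ≤ y ^ 8 := pow_le_pow_right₀ hy1 (by norm_num)
    calc 64 * ((L : ℝ) + 1) * Real.log ((N : ℝ) + 1) =
        64 * (((L : ℝ) + 1) * Real.log ((N : ℝ) + 1)) := by ring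
      _ ≤ 64 * (2 ^ 12 * y ^ 2) := mul_le_mul_of_nonneg_left hprod1 (by norm_num)
      _ ≤ 2 ^ 100 * y ^ 2 := by nlinarith [sq_nonneg y]
      _ ≤ y ^ 8 := hy5.trans h1
  · have hpy : y ^ 7 ≤ c.p * c.te := by
      have h1 : y ^ 7 ≤ c.p * y ^ 8 := by
        have h2 : (y ^ 7) ^ 16 ≤ (c.p * y ^ 8) ^ 16 := by
          have h3 : 1 ≤ (c.n : ℝ) * c.p ^ 16 := by
            refine hp100.trans (mul_le_mul_of_nonneg_left ?_ hnr.le)
            exact pow_le_pow_of_le_one hp0.le hp1 (by omega)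
          rw [hny] at h3
          calc (y ^ 7) ^ 16 = y ^ 112 * 1 := by ring
            _ ≤ y ^ 112 * (y ^ 16 * c.p ^ 16) := mul_le_mul_of_nonneg_left h3 (by positivity)
            _ = (c.p * y ^ 8) ^ 16 := by ring
        exact le_of_pow_le_pow_left₀ (by norm_num) (by positivity) h2
      refine h1.trans (mul_le_mul_of_nonneg_left ?_ hp0.le)
      rw [← hsq]
      exact hte
    refine le_trans ?_ hpy
    have h1 : y ^ 3 ≤ y ^ 7 := pow_le_pow_right₀ hy1 (by norm_num)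
    have h2 : ((L : ℝ) + 2) * Real.log N ≤ 2 ^ 12 * y ^ 2 :=
      le_trans (mul_le_mul_of_nonneg_left hlogNN (by linarith)) hprod
    have h3 : (L : ℝ) ≤ 32 * y ^ 2 := by nlinarith
    calc 32 * (((L : ℝ) + 2) * Real.log N + L) ≤ 32 * (2 ^ 12 * y ^ 2 + 32 * y ^ 2) := by linarith
      _ ≤ 2 ^ 100 * y ^ 2 := by nlinarith [sq_nonneg y]
      _ ≤ y ^ 7 := hy5.trans h1
  · rcases lt_trichotomy c.Cb 0 with h1 | h1 | h1
    · have := hc.Cb_nn
      linarith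
    · rw [h1] at hCb
      have : (0 : ℝ) < (c.n : ℝ) ^ 5 := by positivity
      norm_num at hCb
      linarith
    · exact h1
  · have h1 : y ^ 20 ≤ c.Cb ^ 2 := by
      have h2 : (y ^ 20) ^ 4 ≤ (c.Cb ^ 2) ^ 4 := by
        calc (y ^ 20) ^ 4 = (y ^ 16) ^ 5 := by ring
          _ = (c.n : ℝ) ^ 5 := by rw [hny]
          _ ≤ c.Cb ^ 8 := hCb
          _ = (c.Cb ^ 2) ^ 4 := by ring
      exact le_of_pow_le_pow_left₀ (by norm_num) (by positivity) h2
    rw [le_div_iff₀ (by positivity)]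
    refine le_trans ?_ h1
    have h3 : y ^ 19 ≤ y ^ 20 := pow_le_pow_right₀ hy1 (by norm_num)
    calc 80 * ((L : ℝ) + 1) * Real.log ((N : ℝ) + 1) * (2 * c.n) =
        160 * (((L : ℝ) + 1) * Real.log ((N : ℝ) + 1)) * y ^ 16 := by rw [hny]; ring
      _ ≤ 160 * (2 ^ 12 * y ^ 2) * y ^ 16 := by gcongr
      _ ≤ (2 ^ 100 * y ^ 2) * y ^ 16 := by
          refine mul_le_mul_of_nonneg_right ?_ (by positivity)
          nlinarith [sq_nonneg y]
      _ ≤ y ^ 3 * y ^ 16 := mul_le_mul_of_nonneg_right hy5 (by positivity)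
      _ = y ^ 19 := by ring
      _ ≤ y ^ 20 := h3

end Pool.Agent.H49.RO
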