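/-
The base theorem (helper49): `k` at most a small multiple of `log N`. Uses noref, rnd_ok5, numo_ok,
nqo, ref_of.
-/
import Pool.Agent.H49.RO.Dsc
import Pool.Agent.H49.RO.Nm
import Pool.Agent.H49.RO.Nq
import Pool.Agent.H49.RO.Rf
import Pool.Agent.H49.RO.Rx4
import Pool.Agent.H49.SV.Sup

set_option autoImplicit false
set_option linter.unusedSectionVars false

open Finset

namespace Pool.Agent.H49.RO

open Pool.Agent.H49.RG (Vb GroupRefutation)

theorem Ref.mono {ν : Type} {G : SimpleGraph ν} {R L : ℕ}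
    {V : Fin R → Fin L → Finset ν} {r r' S : ℕ} {F : ℕ → Fin R → (Fin L → ν) → ℝ} {t : ℕ → ℝ}
    (h : Ref G V r S F t) (hr : r ≤ r') : Ref G V r' S F t where
  step := fun s hs => by
    obtain ⟨prem, h1, h2⟩ := h.step s hs
    exact ⟨prem, h1.trans hr, h2⟩
  last := h.last

theorem base : H49.SV.Base (2 ^ 155 * 2 ^ 155) (2 ^ 90) 0 9 := by
  intro c z k N A p hc hz hk hA hN _ hp
  obtain ⟨h1, h2, h3, h4, h5, h6, h7, hT, hRT, a, ha, han⟩ :=
    nqo c z k N A (128 * c) (k / (128 * c) + 1) (N / (128 * c * (k / (128 * c) + 1))) (A / 2 ^ 34) p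
      hc hz hk hA hN hp rfl rfl rfl rfl
  obtain ⟨T, hTe⟩ : ∃ T, T = A / 2 ^ 34 := ⟨_, rfl⟩
  rw [← hTe] at hT hRT ha
  set R : ℕ := 128 * c with hR
  set L : ℕ := k / R + 1 with hL
  set n : ℕ := N / (R * L) with hn
  have hR1 : 1 ≤ R := by omega
  have hL1 : 1 ≤ L := by rw [hL]; exact Nat.le_add_left 1 _
  have hN0 : 0 < N := lt_of_lt_of_le (by positivity) hN
  have hp0 : (0 : ℝ) < p := lt_of_lt_of_le (by positivity) hp
  have ha2 : (2 : ℝ) ^ (2 ^ 19 * L) ≤ a := by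
    refine le_trans (pow_le_pow_right₀ (by norm_num) ?_) ha
    calc 2 ^ 19 * L = 2 ^ 13 * (64 * L) := by ring
      _ ≤ 2 ^ 13 * (T * L) := Nat.mul_le_mul_left _ (Nat.mul_le_mul_right _ hT)
  have hOK := numo_ok a R L (2 * z) n N (k / R) T p hR1 (by omega) h3 (by omega) hp0 p.2.2 h4 h5 hT
    hRT ha han
  have hS := numo_S a R L (2 * z) n N (k / R) z p hR1 le_rfl h6 ha2 hL1 han
  have hpr := rnd_ok5 (R := R) (L := L) (N := N) (numo a R L (2 * z) n N (k / R) p) hOK p rfl h1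
    rfl rfl h4 ?_ ?_ h6 h7
  · refine le_trans ?_ hpr
    refine MeasureTheory.measureReal_mono ?_
    rintro G ⟨S, r, hSN, hr, f, hf⟩ hG
    obtain ⟨F, t, hT⟩ := ref_of (L := L) hR1 h2 G
      (fun (a' : Fin R) (j : Fin L) => Vb R (numo a R L (2 * z) n N (k / R) p).n N a' j) hf
    have hrk : r ≤ k / R := (Nat.le_div_iff_mul_le (by omega)).2 (by rw [mul_comm]; exact hr)
    refine noref hG hOK S ?_ F t (hT.mono hrk)
    refine le_trans ?_ hS
    have hκ := hOK.κ0_pos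
    have hSR : (S : ℝ) ≤ (N : ℝ) ^ z := by exact_mod_cast hSN
    gcongr
  · show (n : ℝ) ^ 5 ≤ (a ^ (256000 * R)) ^ 8
    rw [← han]
    refine le_of_eq ?_
    ring
  · show Real.sqrt n ≤ ((Nat.sqrt n + 1 : ℕ) : ℝ)
    rw [Real.sqrt_le_left (by positivity)]
    have := Nat.lt_succ_sqrt n
    have h8 : n ≤ (Nat.sqrt n + 1) ^ 2 := by
      rw [pow_two]
      exact this.le
    exact_mod_cast h8

end Pool.Agent.H49.RO
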