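/-
The final theorem (helper49): from `base` and `super`.
-/
import Pool.Agent.H49.RO.Fx
import Pool.Agent.H49.RG.Cp
import Pool.Agent.H35.CL.Uny
import Pool.Agent.H9.KR.CF

set_option autoImplicit false
set_option linter.unusedSectionVars false

open Finset

namespace Pool.Agent.H49.RO

open Pool.Agent.H35.CL Pool.Agent.H9.KR
open Pool.Agent.H49.RG (GroupRefutation cutting_group)

/-- There is no clique. -/
theorem clique_pr {k N : ℕ} (p : unitInterval) (hN0 : 0 < N) (hk : 5 ≤ k)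
    (hp3 : (p : ℝ) ≤ (N : ℝ) ^ (-(2 + 5 / (k : ℝ)) / k)) :
    (SimpleGraph.binomialRandom (Fin N) p).real {G | ¬ G.CliqueFree k} ≤ 1 / N := by
  rw [real_eq_pr p]
  refine (pr_clique (rsub_gnp (V := Fin N) p) k).trans ?_
  rw [Fintype.card_fin]
  have hNr : (1 : ℝ) ≤ N := by exact_mod_cast hN0
  have hN0' : (0 : ℝ) < N := by linarith
  have hk5 : (5 : ℝ) ≤ k := by exact_mod_cast hk
  have hk0 : (0 : ℝ) < k := by linarith
  have h2 : ((N.choose k : ℕ) : ℝ) ≤ (N : ℝ) ^ (k : ℝ) := by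
    rw [Real.rpow_natCast]
    exact_mod_cast Nat.choose_le_pow N k
  have h3 : (p : ℝ) ^ (k.choose 2) ≤ (N : ℝ) ^ (-((2 + 5 / (k : ℝ)) * ((k : ℝ) - 1) / 2)) := by
    calc (p : ℝ) ^ (k.choose 2) ≤ ((N : ℝ) ^ (-(2 + 5 / (k : ℝ)) / k)) ^ (k.choose 2) :=
          pow_le_pow_left₀ p.2.1 hp3 _
      _ = (N : ℝ) ^ (-((2 + 5 / (k : ℝ)) * ((k : ℝ) - 1) / 2)) := by
          rw [← Real.rpow_natCast, ← Real.rpow_mul hN0'.le, Nat.cast_choose_two]
          congr 1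
          field_simp
  calc ((N.choose k : ℕ) : ℝ) * (p : ℝ) ^ (k.choose 2) ≤
        (N : ℝ) ^ (k : ℝ) * (N : ℝ) ^ (-((2 + 5 / (k : ℝ)) * ((k : ℝ) - 1) / 2)) :=
          mul_le_mul h2 h3 (pow_nonneg p.2.1 _) (by positivity)
    _ = (N : ℝ) ^ ((k : ℝ) + -((2 + 5 / (k : ℝ)) * ((k : ℝ) - 1) / 2)) :=
          (Real.rpow_add hN0' _ _).symm
    _ ≤ (N : ℝ) ^ (-1 : ℝ) := by
        apply Real.rpow_le_rpow_of_exponent_le hNr
        have e1 : (2 + 5 / (k : ℝ)) * ((k : ℝ) - 1) / 2 = k + 3 / 2 - 5 / (2 * k) := by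
          field_simp
          ring
        have e2 : 5 / (2 * (k : ℝ)) ≤ 1 / 2 := by
          rw [div_le_div_iff₀ (by positivity) (by norm_num)]
          linarith
        rw [e1]
        linarith
    _ = 1 / N := by rw [Real.rpow_neg_one, one_div]

theorem main (c K : ℕ) (hc : 1 ≤ c) (hK : 1 ≤ K) :
    ∃ C : ℕ, 1 ≤ C ∧ ∀ (k N : ℕ) (p : unitInterval), C ≤ k → 2 ^ k ≤ N ^ K →
      (N : ℝ) ^ (-(c : ℝ) / k) ≤ p →
      (SimpleGraph.binomialRandom (Fin N) p).real {G | ∃ S : ℕ, S ^ C ≤ N ^ k ∧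
        ((∃ D, ResolutionOf (KClique G k) S D) ∨ ∃ q, C * q ≤ k ∧
          ((∃ a b, CuttingPlanesOf (KClique G k) q S a b) ∨
            ∃ f, GroupRefutation (k := k) G C q S f))} ≤ 1 / N ∧
      ((p : ℝ) ≤ (N : ℝ) ^ (-(2 + 5 / (k : ℝ)) / k) →
        (SimpleGraph.binomialRandom (Fin N) p).real {G | ¬ G.CliqueFree k} ≤ 1 / N) := by
  obtain ⟨C, hC2, hC⟩ := H49.SV.super _ _ _ _ base c K hc hK
  refine ⟨3 * C, by omega, fun k N p hk hN hp => ?_⟩
  have hN0 : 0 < N := by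
    rcases Nat.eq_zero_or_pos N with h | h
    · subst h
      rw [Nat.zero_pow hK] at hN
      exact absurd hN (by have := Nat.two_pow_pos k; omega)
    · exact h
  refine ⟨?_, clique_pr p hN0 (by omega)⟩
  obtain ⟨z, hz⟩ : ∃ z, z = k / C := ⟨_, rfl⟩
  have hz1 : C * z ≤ k := by rw [hz]; exact Nat.mul_div_le k C
  have hz2 : k < C * (z + 1) := by rw [hz]; exact Nat.lt_mul_div_succ k (by omega)
  have hz0 : 1 ≤ z := by
    rw [hz, Nat.one_le_div_iff (by omega)]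
    omega
  have hSz : ∀ S : ℕ, S ^ (3 * C) ≤ N ^ k → S ≤ N ^ z := by
    intro S hS
    have h1 : S ^ (3 * C) ≤ (N ^ z) ^ (3 * C) := by
      refine hS.trans ?_
      rw [← pow_mul]
      refine Nat.pow_le_pow_right hN0 ?_
      have h2 : C * (z + 1) ≤ z * (3 * C) := by
        calc C * (z + 1) ≤ C * (3 * z) := Nat.mul_le_mul_left _ (by omega)
          _ = z * (3 * C) := by ring
      omega
    exact (Nat.pow_le_pow_iff_left (by omega)).1 h1
  refine le_trans (MeasureTheory.measureReal_mono ?_)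
    (hC z k N p hz0 hz1 hN (by rw [zero_mul, zero_mul, pow_zero]; exact hN0) hp)
  rintro G ⟨S, hS, h | ⟨q, hq, h | ⟨f, hf⟩⟩⟩
  · obtain ⟨D, hD⟩ := h
    obtain ⟨a, b, hab⟩ := resolution_cutting hD
    obtain ⟨f, hf⟩ := cutting_group (R := C) (by omega) (by omega) G hab
    exact ⟨S, 2, hSz S hS, by omega, f, hf⟩
  · obtain ⟨a, b, hab⟩ := h
    obtain ⟨f, hf⟩ := cutting_group (R := C) (by omega) (by omega) G hab
    exact ⟨S, q, hSz S hS, by nlinarith, f, hf⟩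
  · exact ⟨S, q, hSz S hS, by nlinarith, f, H49.SV.coarse (by omega) ⟨3, by ring⟩ G hf⟩

end Pool.Agent.H49.RO
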